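import Pool.Agent.V8H77.DP.Hdg
import Pool.Agent.V8H77.PC.Main
import Pool.Agent.N113.BT.Core

set_option autoImplicit false
set_option linter.unusedSectionVars false
set_option linter.unusedVariables false

/-!
# The complex structure is in the Lie algebra of the group, if the domain is visible on an ideal
-/

open Module Function TensorProduct Matrix

noncomputable section

namespace Pool.Agent.V8H77.DP

open Pool.Agent.Y102 Pool.Agent.W516.DR Pool.Agent.H204R3.GP Pool.Agent.W516.KC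
  Pool.Agent.H204R3.SP Pool.Agent.TH119.MX Pool.Agent.R917 Pool.Agent.N208.AM Pool.Agent.N113.BT

variable {g : ℕ} {A : AbVar g} {s n : ℕ} {r : Fin s → ℕ} {B : Fin n → Ten A r} {w : Fin s → ℤ}
  {P : Matrix (Fin n) (Fin n) ℂ} {Wt : Matrix (Fin n) (Fin n) ℚ}
  {H : Set (Matrix (Fin n) (Fin n) ℂ)} {N : Matrix (Fin n) (Fin n) ℝ}

/-- A space of endomorphisms, closed under brackets with the derived algebra, such that every full
subalgebra covers the derived algebra up to this space. -/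
structure Cov (A : AbVar g) (K : Submodule ℂ (Module.End ℂ (ℂ ⊗[ℚ] A.H1))) : Prop where
  br : ∀ x ∈ K, ∀ X ∈ der A.NA, x * X.baseChange ℂ - X.baseChange ℂ * x ∈ K
  cov : ∀ 𝔮, A.Full 𝔮 → ∀ X ∈ der A.NA, ∃ y ∈ cx (der 𝔮), X.baseChange ℂ - y ∈ K

variable {K : Submodule ℂ (Module.End ℂ (ℂ ⊗[ℚ] A.H1))}

/-- The real matrices of the part in `K`. -/
def nKK (B : Fin n → Ten A r) (K : Submodule ℂ (Module.End ℂ (ℂ ⊗[ℚ] A.H1))) :
    Submodule ℝ (Matrix (Fin n) (Fin n) ℝ) where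
  carrier := {z | ∃ p ∈ pC B (der A.NA), p.1 ∈ K ∧ z = reM p.2}
  zero_mem' := ⟨0, Submodule.zero_mem _, K.zero_mem, by ext i j; simp⟩
  add_mem' := by
    rintro _ _ ⟨p, hp, h1, rfl⟩ ⟨q, hq, h2, rfl⟩
    exact ⟨p + q, Submodule.add_mem _ hp hq, K.add_mem h1 h2, by rw [Prod.snd_add, reM_add]⟩
  smul_mem' := by
    rintro c _ ⟨p, hp, h1, rfl⟩
    refine ⟨(c : ℂ) • p, Submodule.smul_mem _ _ hp, K.smul_mem _ h1, ?_⟩
    rw [Prod.smul_snd, reM_smul, Complex.ofReal_re, Complex.ofReal_im, zero_smul, sub_zero]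

/-- **The complex structure is in the Lie algebra of the group**, up to the centre. -/
theorem N_memK (h : Mot w B P) (hW : WRel w B Wt) (hH : PtM P H) (hr : Cov A K)
    (hN : RelR B AbVar.JJ N) {Nc Nd : Matrix (Fin n) (Fin n) ℝ}
    (hNc : Nc ∈ spR B (cenA A : Set (Module.End ℚ A.H1)))
    (hNd : Nd ∈ spR B (der A.NA : Set (Module.End ℚ A.H1))) (hNe : N = Nc + Nd)
    (hα : ∀ p ∈ pC B (der A.NA), p.1 ∈ K → p.2 * cxm N = cxm N * p.2) :
    Nd ∈ spR B (dq B Wt H : Set (Module.End ℚ A.H1)) := by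
  have hq := qM_full h hW hH
  have hdN : dq B Wt H ≤ A.NA := fun Z hZ => (der_mem h hW hZ).1
  have hdd : dq B Wt H ≤ der A.NA := by
    unfold dq der
    exact Submodule.span_mono fun _ ⟨X, hX, Y, hY, e⟩ => ⟨X, hq.le hX, Y, hq.le hY, e⟩
  have hdb : ∀ X ∈ dq B Wt H, ∀ Y ∈ dq B Wt H, X * Y - Y * X ∈ dq B Wt H := fun X hX Y hY =>
    Submodule.subset_span ⟨X, hq.der_le hX, Y, hq.der_le hY, rfl⟩
  have hle : spR B (der A.NA : Set (Module.End ℚ A.H1)) ≤
      spR B (A.NA : Set (Module.End ℚ A.H1)) := spR_mono der_NA_le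
  have hnm : nKK B K ≤ spR B (der A.NA : Set (Module.End ℚ A.H1)) := by
    rintro _ ⟨p, hp, -, rfl⟩
    exact (pC_re hp).1
  refine mem_of_sup (dat h hN hNc hNd hNe) (spR_mono hdd) (spR_br hdb) hnm ?_ ?_ ?_
  · rintro x hx z ⟨p, hp, h1, rfl⟩
    induction hx using Submodule.span_induction with
    | mem x hx =>
      obtain ⟨X, hX, M, hM, rfl⟩ := hx
      refine ⟨_, pC_br h hX hM hp, ?_, ?_⟩
      · exact hr.br _ h1 X hX
      · change _ = reM (cq M * p.2 - p.2 * cq M)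
        rw [reM_sub, ← cxm_rq, reM_mul, reM_mul', RLie.br_apply]
    | zero => rw [LinearMap.map_zero₂]; exact Submodule.zero_mem _
    | add a b _ _ ha hb => rw [LinearMap.map_add₂]; exact Submodule.add_mem _ ha hb
    | smul c a _ ha => rw [LinearMap.map_smul₂]; exact Submodule.smul_mem _ _ ha
  · intro z hz
    have h2 : RLie.br N z = 0 := by
      obtain ⟨p, hp, h1, rfl⟩ := hz
      have h3 := congrArg reM (hα p hp h1)
      rw [reM_mul, reM_mul'] at h3
      rw [RLie.br_apply, h3, sub_self]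
    rw [hNe, LinearMap.map_add₂, cenA_br h hNc (hle (hnm hz)), zero_add] at h2
    exact h2
  · rw [spR, Submodule.span_le]
    rintro _ ⟨X, hX, M, hM, rfl⟩
    obtain ⟨y, hy, h1⟩ := hr.cov _ hq X hX
    obtain ⟨y', hy'⟩ := exists_pC h hdN hy
    have h2 : ((X.baseChange ℂ : Module.End ℂ (ℂ ⊗[ℚ] A.H1)), cq M) ∈ pC B (der A.NA) :=
      Submodule.subset_span ⟨X, hX, M, hM, rfl⟩
    have h3 := Submodule.sub_mem _ h2 (pC_mono hdd hy')
    have h4 : rq M = reM y' + (rq M - reM y') := by abel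
    change rq M ∈ _
    rw [h4]
    refine Submodule.add_mem_sup (pC_re hy').1 ⟨_, h3, h1, ?_⟩
    change _ = reM (cq M - y')
    rw [reM_sub, reM_cq]

/-- **Main theorem** on the derived algebra: the derived algebra of the Lie algebra of the Hodge group is
in the Lie algebra of the group. -/
theorem main_derK (h : Mot w B P) (hW : WRel w B Wt) (hH : PtM P H) (hr : Cov A K)
    (hN : RelR B AbVar.JJ N)
    (hα : ∀ p ∈ pC B (der A.NA), p.1 ∈ K → p.2 * cxm N = cxm N * p.2) :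
    ∃ L : Submodule ℚ (Matrix (Fin n) (Fin n) ℚ), (∀ x ∈ L, ∀ y ∈ L, x * y - y * x ∈ L) ∧
      N ∈ Submodule.span ℝ {M | ∃ x ∈ L, M = rq x} ∧
      ∀ x ∈ L, ∀ y ∈ L, x * y - y * x ∈ LQ H := by
  obtain ⟨N', hN', t, X, M, h1, h2⟩ := exists_J h
  have h3 : N = N' := hN.uniq h.li hN'
  subst h3
  have h4 : N ∈ spR B (A.NA : Set (Module.End ℚ A.H1)) := by
    rw [h2]
    exact Submodule.sum_mem _ fun k _ => Submodule.smul_mem _ _ (mem_spR (h1 k).1 (h1 k).2)
  obtain ⟨Nc, hNc, Nd, hNd, hNe⟩ := exists_dec h h4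
  have h5 := N_memK h hW hH hr hN hNc hNd hNe hα
  refine ⟨cdM B Wt H, fun x hx y hy => ?_, ?_, fun x hx y hy => ?_⟩
  · obtain ⟨d, hd, hd'⟩ := cdM_br h hW hH hx hy
    exact ⟨0, (cenA A).zero_mem, d, hd, 0, _, Rel.zero, hd', (zero_add _).symm⟩
  · rw [hNe]
    refine Submodule.add_mem _ ?_ ?_
    · refine Submodule.span_mono ?_ hNc
      rintro _ ⟨Z, hZ, M, hM, rfl⟩
      exact ⟨M, ⟨Z, hZ, 0, (dq B Wt H).zero_mem, M, 0, hM, Rel.zero, (add_zero _).symm⟩, rfl⟩
    · refine Submodule.span_mono ?_ h5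
      rintro _ ⟨d, hd, M, hM, rfl⟩
      exact ⟨M, ⟨0, (cenA A).zero_mem, d, hd, 0, M, Rel.zero, hM, (zero_add _).symm⟩, rfl⟩
  · obtain ⟨d, hd, hd'⟩ := cdM_br h hW hH hx hy
    obtain ⟨-, M', h6, h7⟩ := der_mem h hW hd
    rw [hd'.uniq h.li h6]
    exact h7

theorem stab_of_LQ {T : Submodule ℚ (Module.End ℚ A.H1)} (hH : PtM P H)
    (hder : ∀ X ∈ T, ∀ M, Rel B X M → M ∈ LQ H)
    {M : Matrix (Fin n) (Fin n) ℝ} (hM : M ∈ spR B (T : Set (Module.End ℚ A.H1))) (d : ℕ) :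
    Stab H d (cxm M) := by
  induction hM using Submodule.span_induction with
  | mem M hM =>
    obtain ⟨Z, hZ, Mq, hMq, rfl⟩ := hM
    have h3 : cxm (rq Mq) = cq Mq := by
      ext i j
      simp [cxm]
    rw [h3]
    exact hder Z hZ Mq hMq d
  | zero =>
    have h3 : cxm (0 : Matrix (Fin n) (Fin n) ℝ) = 0 := by
      ext i j
      simp [cxm]
    rw [h3]
    exact Stab.zero
  | add a b _ _ ha hb =>
    have h3 : cxm (a + b) = cxm a + cxm b := by
      ext i j
      simp [cxm]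
    rw [h3]
    exact ha.add hb
  | smul c a _ ha =>
    have h3 : cxm (c • a) = (c : ℂ) • cxm a := by
      ext i j
      simp [cxm]
    rw [h3]
    exact ha.smul _

/-- **Main theorem**, if the centre is in the Lie algebra of the group. -/
theorem main_MTK (h : Mot w B P) (hW : WRel w B Wt) (hH : PtM P H) (hr : Cov A K)
    (hc : ∀ X ∈ cenA A, ∀ M, Rel B X M → M ∈ LQ H) (hN : RelR B AbVar.JJ N)
    (hα : ∀ p ∈ pC B (der A.NA), p.1 ∈ K → p.2 * cxm N = cxm N * p.2)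
    {z : ℂ} (hz : z ≠ 0) : NormedSpace.exp (KK Wt N z) ∈ H ∧
      HRel w B z (NormedSpace.exp (KK Wt N z)) := by
  obtain ⟨N', hN', t, X, M, h1, h2⟩ := exists_J h
  have h3 : N = N' := hN.uniq h.li hN'
  subst h3
  have h4 : N ∈ spR B (A.NA : Set (Module.End ℚ A.H1)) := by
    rw [h2]
    exact Submodule.sum_mem _ fun k _ => Submodule.smul_mem _ _ (mem_spR (h1 k).1 (h1 k).2)
  obtain ⟨Nc, hNc, Nd, hNd, hNe⟩ := exists_dec h h4
  have h5 := N_memK h hW hH hr hN hNc hNd hNe hα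
  refine ⟨exp_mem hH.grp fun d => ?_, hrel_exp hW hN hz⟩
  have h6 : cxm N = cxm Nc + cxm Nd := by
    rw [hNe]
    ext i j
    simp [cxm]
  unfold KK
  rw [h6]
  exact ((Pool.Agent.N208.CT.Wt_mem' h hW hH d).smul _).add
    (((stab_of_LQ hH hc hNc d).add (stab_spR h hW h5 d)).smul _)

/-! ### Families of planes -/

/-- The endomorphisms which vanish on all planes of the family. -/
def kills {ι : Type} (Q : ι → Pl A) : Submodule ℂ (Module.End ℂ (ℂ ⊗[ℚ] A.H1)) where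
  carrier := {x | ∀ a j, x ((Q a).u j) = 0}
  zero_mem' := fun _ _ => rfl
  add_mem' := fun {x y} hx hy a j => by rw [LinearMap.add_apply, hx, hy, add_zero]
  smul_mem' := fun c x hx a j => by rw [LinearMap.smul_apply, hx, smul_zero]

theorem cov_kills {ι : Type} [Finite ι] (Q : ι → Pl A)
    (hQ : ∀ a b, (Q a).Iso (Q b) ∨ (Q a).Apart (Q b)) : Cov A (kills Q) where
  br := fun x hx X hX a j => by
    have hX' := der_NA_le hX
    rw [LinearMap.sub_apply, Module.End.mul_apply, Module.End.mul_apply, hx a j, map_zero, sub_zero,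
      (Q a).R_spec ((Q a).cx_le_St _ (bc_mem hX')), map_sum]
    refine Finset.sum_eq_zero fun i _ => ?_
    rw [map_smul, hx a i, smul_zero]
  cov := fun 𝔮 h X hX => by
    obtain ⟨y, hy, h1⟩ := Pl.joint h Q hQ hX
    exact ⟨y, hy, fun a j => by rw [LinearMap.sub_apply, h1, sub_self]⟩

end Pool.Agent.V8H77.DP
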