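import Pool.Agent.V8H77.DP.Plane
import Pool.Agent.N208.AD.Dec

set_option autoImplicit false
set_option linter.unusedSectionVars false

/-!
# The complex structure and the polarization on the stable planes
-/

open Module Function TensorProduct Matrix

noncomputable section

namespace Pool.Agent.V8H77.DP

open Pool.Agent.Y102 Pool.Agent.W516.DR Pool.Agent.H204R3.GP Pool.Agent.W516.KC
  Pool.Agent.H204R3.SP Pool.Agent.N208.AD

variable {g : ℕ} {A : AbVar g}

/-- the real part -/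
def reQ : ℂ →ₗ[ℚ] ℝ := Complex.reLm.restrictScalars ℚ
/-- the imaginary part -/
def imQ : ℂ →ₗ[ℚ] ℝ := Complex.imLm.restrictScalars ℚ

theorem reQ_apply (z : ℂ) : reQ z = z.re := rfl
theorem imQ_apply (z : ℂ) : imQ z = z.im := rfl

variable (A) in
/-- the map to the tangent space given by a rational linear form on the complex numbers -/
def psi (f : ℂ →ₗ[ℚ] ℝ) : (ℂ ⊗[ℚ] A.H1) →ₗ[ℚ] (Fin g → ℂ) :=
  TensorProduct.lift (LinearMap.mk₂ ℚ (fun z v => f z • A.per v)
    (fun z z' v => by rw [map_add, add_smul])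
    (fun c z v => by
      rw [map_smul, AbVar.rat_smul, Rat.smul_def, mul_smul])
    (fun z v v' => by rw [map_add, smul_add])
    (fun c z v => by rw [map_smul, AbVar.rat_smul, AbVar.rat_smul, smul_comm]))

theorem psi_tmul (f : ℂ →ₗ[ℚ] ℝ) (z : ℂ) (v : A.H1) : psi A f (z ⊗ₜ v) = f z • A.per v := rfl

theorem psi_bc (f : ℂ →ₗ[ℚ] ℝ) (X : Module.End ℚ A.H1) (v : ℂ ⊗[ℚ] A.H1) :
    psi A f (X.baseChange ℂ v) = A.ext X (psi A f v) := by
  induction v using TensorProduct.induction_on with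
  | zero => simp
  | tmul z v => rw [LinearMap.baseChange_tmul, psi_tmul, psi_tmul, map_smul, A.ext_apply]
  | add a b ha hb => rw [map_add, map_add, map_add, map_add, ha, hb]

theorem psi_re_smul (c : ℂ) (v : ℂ ⊗[ℚ] A.H1) :
    psi A reQ (c • v) = c.re • psi A reQ v - c.im • psi A imQ v := by
  induction v using TensorProduct.induction_on with
  | zero => simp
  | tmul z v =>
    rw [TensorProduct.smul_tmul', psi_tmul, psi_tmul, psi_tmul, smul_eq_mul, reQ_apply, reQ_apply,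
      imQ_apply, Complex.mul_re]
    module
  | add a b ha hb => rw [smul_add, map_add, map_add, map_add, ha, hb]; module

theorem psi_im_smul (c : ℂ) (v : ℂ ⊗[ℚ] A.H1) :
    psi A imQ (c • v) = c.re • psi A imQ v + c.im • psi A reQ v := by
  induction v using TensorProduct.induction_on with
  | zero => simp
  | tmul z v =>
    rw [TensorProduct.smul_tmul', psi_tmul, psi_tmul, psi_tmul, smul_eq_mul, reQ_apply, imQ_apply,
      imQ_apply, Complex.mul_im]
    module
  | add a b ha hb => rw [smul_add, map_add, map_add, map_add, ha, hb]; module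

/-- the basis of the complex homology -/
def cbas (A : AbVar g) : Basis (Fin (2 * g)) ℂ (ℂ ⊗[ℚ] A.H1) :=
  Algebra.TensorProduct.basis ℂ (Pi.basisFun ℚ (Fin (2 * g)))

theorem psi_sum (c : Fin (2 * g) → ℂ) :
    psi A reQ (∑ j, c j • cbas A j) = ∑ j, (c j).re • A.lam j ∧
      psi A imQ (∑ j, c j • cbas A j) = ∑ j, (c j).im • A.lam j := by
  have h1 : ∀ j, cbas A j = (1 : ℂ) ⊗ₜ (Pi.single j 1 : A.H1) := fun j => by
    unfold cbas
    rw [Algebra.TensorProduct.basis_apply, Pi.basisFun_apply]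
  have h2 : ∀ j, A.per (Pi.single j 1 : A.H1) = A.lam j := fun j => by
    rw [← A.per_bas]
    unfold AbVar.bas
    rw [Pi.basisFun_apply]
  have h3 : ∀ j, psi A reQ (cbas A j) = A.lam j ∧ psi A imQ (cbas A j) = 0 := fun j => by
    rw [h1, psi_tmul, psi_tmul, h2, reQ_apply, imQ_apply, Complex.one_re, Complex.one_im, one_smul,
      zero_smul]
    exact ⟨rfl, rfl⟩
  constructor
  · rw [map_sum]
    refine Finset.sum_congr rfl fun j _ => ?_
    rw [psi_re_smul, (h3 j).1, (h3 j).2, smul_zero, sub_zero]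
  · rw [map_sum]
    refine Finset.sum_congr rfl fun j _ => ?_
    rw [psi_im_smul, (h3 j).1, (h3 j).2, smul_zero, zero_add]

theorem psi_inj {v : ℂ ⊗[ℚ] A.H1} (h1 : psi A reQ v = 0) (h2 : psi A imQ v = 0) : v = 0 := by
  rw [← (cbas A).sum_repr v] at h1 h2 ⊢
  rw [(psi_sum _).1] at h1
  rw [(psi_sum _).2] at h2
  have h3 := Fintype.linearIndependent_iff.1 A.lam.linearIndependent
  have h4 := h3 _ h1
  have h5 := h3 _ h2
  refine Finset.sum_eq_zero fun j _ => ?_
  have h6 : (cbas A).repr v j = 0 := Complex.ext (h4 j) (h5 j)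
  rw [h6, zero_smul]

theorem psi_ext {v w : ℂ ⊗[ℚ] A.H1} (h1 : psi A reQ v = psi A reQ w)
    (h2 : psi A imQ v = psi A imQ w) : v = w := by
  rw [← sub_eq_zero]
  refine psi_inj ?_ ?_
  · rw [map_sub, h1, sub_self]
  · rw [map_sub, h2, sub_self]

/-- Elements of the real span give complex endomorphisms. -/
theorem exists_cx {S : Submodule ℚ (Module.End ℚ A.H1)} {Y : Module.End ℝ (Fin g → ℂ)}
    (hY : Y ∈ spE A (S : Set (Module.End ℚ A.H1))) : ∃ y ∈ cx S, ∀ v,
      psi A reQ (y v) = Y (psi A reQ v) ∧ psi A imQ (y v) = Y (psi A imQ v) := by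
  induction hY using Submodule.span_induction with
  | mem Y hY =>
    obtain ⟨X, hX, rfl⟩ := hY
    exact ⟨_, bc_mem hX, fun v => ⟨psi_bc _ _ _, psi_bc _ _ _⟩⟩
  | zero => exact ⟨0, Submodule.zero_mem _, fun v => by simp⟩
  | add a b _ _ ha hb =>
    obtain ⟨x, hx, h1⟩ := ha
    obtain ⟨y, hy, h2⟩ := hb
    exact ⟨x + y, Submodule.add_mem _ hx hy, fun v => by
      rw [LinearMap.add_apply, map_add, map_add, (h1 v).1, (h1 v).2, (h2 v).1, (h2 v).2]
      exact ⟨rfl, rfl⟩⟩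
  | smul c a _ ha =>
    obtain ⟨x, hx, h1⟩ := ha
    exact ⟨(c : ℂ) • x, Submodule.smul_mem _ _ hx, fun v => by
      rw [LinearMap.smul_apply, psi_re_smul, psi_im_smul, (h1 v).1, (h1 v).2, Complex.ofReal_re,
        Complex.ofReal_im, zero_smul, zero_smul, sub_zero, add_zero]
      exact ⟨rfl, rfl⟩⟩

/-- The complex structure on the complex homology. -/
theorem exists_JC (A : AbVar g) : ∃ J ∈ cx A.NA, ∀ v,
    psi A reQ (J v) = Complex.I • psi A reQ v ∧ psi A imQ (J v) = Complex.I • psi A imQ v := by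
  obtain ⟨y, hy, h⟩ := exists_cx (A := A) (S := A.NA) JJ_mem
  exact ⟨y, hy, h⟩

/-- the complex structure -/
def JC (A : AbVar g) : Module.End ℂ (ℂ ⊗[ℚ] A.H1) := (exists_JC A).choose

theorem JC_mem : JC A ∈ cx A.NA := (exists_JC A).choose_spec.1

theorem psi_JC (v : ℂ ⊗[ℚ] A.H1) : psi A reQ (JC A v) = Complex.I • psi A reQ v ∧
    psi A imQ (JC A v) = Complex.I • psi A imQ v := (exists_JC A).choose_spec.2 v

theorem JC_sq (v : ℂ ⊗[ℚ] A.H1) : JC A (JC A v) = - v := by
  refine psi_ext ?_ ?_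
  · rw [(psi_JC _).1, (psi_JC _).1, smul_smul, Complex.I_mul_I, map_neg, neg_one_smul]
  · rw [(psi_JC _).2, (psi_JC _).2, smul_smul, Complex.I_mul_I, map_neg, neg_one_smul]

/-! ### The hermitian form -/

/-- The hermitian form (up to a factor `i`) on the complex homology. -/
def HH (A : AbVar g) (x y : ℂ ⊗[ℚ] A.H1) : ℂ :=
  ⟨A.E (psi A reQ x) (psi A reQ y) + A.E (psi A imQ x) (psi A imQ y),
    A.E (psi A imQ x) (psi A reQ y) - A.E (psi A reQ x) (psi A imQ y)⟩

theorem HH_add_left (x x' y : ℂ ⊗[ℚ] A.H1) : HH A (x + x') y = HH A x y + HH A x' y := by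
  apply Complex.ext
  · simp [HH]; ring
  · simp [HH]; ring

theorem HH_add_right (x y y' : ℂ ⊗[ℚ] A.H1) : HH A x (y + y') = HH A x y + HH A x y' := by
  apply Complex.ext
  · simp [HH]; ring
  · simp [HH]; ring

theorem HH_smul_left (c : ℂ) (x y : ℂ ⊗[ℚ] A.H1) : HH A (c • x) y = c * HH A x y := by
  apply Complex.ext
  · simp [HH, psi_re_smul, psi_im_smul]; ring
  · simp [HH, psi_re_smul, psi_im_smul]; ring

theorem HH_smul_right (c : ℂ) (x y : ℂ ⊗[ℚ] A.H1) :
    HH A x (c • y) = (starRingEnd ℂ) c * HH A x y := by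
  apply Complex.ext
  · simp [HH, psi_re_smul, psi_im_smul]; ring
  · simp [HH, psi_re_smul, psi_im_smul]; ring

theorem HH_skew {X : Module.End ℚ A.H1} (hX : X ∈ A.NA) (x y : ℂ ⊗[ℚ] A.H1) :
    HH A (X.baseChange ℂ x) y + HH A x (X.baseChange ℂ y) = 0 := by
  have hsk : ∀ u v, A.E (A.ext X u) v = -A.E u (A.ext X v) := by
    have h2 : A.E.comp (A.ext X) = -(A.E.flip.comp (A.ext X)).flip := by
      refine A.ext_per fun u => A.ext_per fun v => ?_
      change A.E (A.ext X (A.per u)) (A.per v) = -A.E (A.per u) (A.ext X (A.per v))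
      rw [A.ext_apply, A.ext_apply, ← A.om_coe, ← A.om_coe, ← Rat.cast_neg]
      congr 1
      linear_combination A.NA_skew hX u v
    intro u v
    exact congrArg (fun F : (Fin g → ℂ) →ₗ[ℝ] (Fin g → ℂ) →ₗ[ℝ] ℝ => F u v) h2
  apply Complex.ext
  · simp [HH, psi_bc, hsk]; ring
  · simp [HH, psi_bc, hsk]

theorem HH_JC (x y : ℂ ⊗[ℚ] A.H1) : HH A (JC A x) y + HH A x (JC A y) = 0 := by
  apply Complex.ext
  · simp only [HH, (psi_JC _).1, (psi_JC _).2, (A.E_I _ _).2, Complex.add_re, Complex.zero_re]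
    ring
  · simp only [HH, (psi_JC _).1, (psi_JC _).2, (A.E_I _ _).2, Complex.add_im, Complex.zero_im]
    ring

theorem HH_pos {x : ℂ ⊗[ℚ] A.H1} (hx : x ≠ 0) : ∃ r : ℝ, 0 < r ∧ HH A x (JC A x) = r := by
  refine ⟨A.E (psi A reQ x) (Complex.I • psi A reQ x) +
    A.E (psi A imQ x) (Complex.I • psi A imQ x), ?_, ?_⟩
  · by_cases h : psi A reQ x = 0
    · have h2 : psi A imQ x ≠ 0 := fun h2 => hx (psi_inj h h2)
      rw [h, map_zero, LinearMap.zero_apply, zero_add]
      exact A.E_pos h2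
    · have h1 := A.E_pos h
      by_cases h2 : psi A imQ x = 0
      · rw [h2, map_zero, LinearMap.zero_apply, add_zero]
        exact h1
      · exact add_pos h1 (A.E_pos h2)
  · apply Complex.ext
    · simp only [HH, (psi_JC _).1, (psi_JC _).2, Complex.ofReal_re]
    · simp only [HH, (psi_JC _).1, (psi_JC _).2, Complex.ofReal_im]
      have h1 := (A.E_I (psi A reQ x) (psi A imQ x)).2
      have h2 := A.E_anti (Complex.I • psi A reQ x) (psi A imQ x)
      linarith

/-! ### Traces on planes -/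

namespace Pl

variable (p : Pl A)

/-- the complex structure acts on the plane as a scalar -/
def Scalar : Prop := ∃ c : ℂ, ∀ j, JC A (p.u j) = c • p.u j

theorem Scalar.on {p : Pl A} {c : ℂ} (h : ∀ j, JC A (p.u j) = c • p.u j) {v : ℂ ⊗[ℚ] A.H1}
    (hv : v ∈ p.W) : JC A v = c • v := by
  obtain ⟨a, rfl⟩ := p.mem_W_iff.1 hv
  rw [map_sum, Finset.smul_sum]
  exact Finset.sum_congr rfl fun j _ => by rw [map_smul, h j, smul_comm]

/-- **Compact planes.** -/
theorem trace_nonpos (hs : p.Scalar) {X : Module.End ℚ A.H1} (hX : X ∈ A.NA)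
    (ht : (p.R (X.baseChange ℂ)).trace = 0) :
    ∃ r : ℝ, r ≤ 0 ∧ (p.R (X.baseChange ℂ) * p.R (X.baseChange ℂ)).trace = r := by
  obtain ⟨c, hc⟩ := hs
  set m := p.R (X.baseChange ℂ) with hm
  obtain ⟨t, hte⟩ := Module.End.exists_eigenvalue (K := ℂ) (Matrix.toLin' m)
  obtain ⟨w, hw⟩ := hte.exists_hasEigenvector
  have hw1 : m *ᵥ w = t • w := by
    have := hw.apply_eq_smul
    rwa [Matrix.toLin'_apply] at this
  have hSt := p.cx_le_St _ (bc_mem hX)
  have hv1 := p.R_comb hSt w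
  rw [← hm, hw1] at hv1
  set v := ∑ j, w j • p.u j with hv
  have hvW : v ∈ p.W := p.mem_W_iff.2 ⟨w, rfl⟩
  have hv2 : X.baseChange ℂ v = t • v := by
    rw [hv1, hv, Finset.smul_sum]
    exact Finset.sum_congr rfl fun i _ => by rw [Pi.smul_apply, smul_eq_mul, mul_smul]
  have hv0 : v ≠ 0 := by
    intro h0
    have h1 := p.co_comb w
    rw [← hv, h0, map_zero] at h1
    exact hw.2 h1.symm
  obtain ⟨r, hr, hr1⟩ := HH_pos hv0
  rw [Scalar.on hc hvW, HH_smul_right] at hr1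
  have hne : HH A v v ≠ 0 := by
    intro h0
    rw [h0, mul_zero] at hr1
    exact hr.ne (by exact_mod_cast hr1)
  have h2 := HH_skew hX v v
  rw [hv2, HH_smul_left, HH_smul_right, ← add_mul] at h2
  have h3 := (mul_eq_zero.1 h2).resolve_right hne
  have h4 : t.re = 0 := by
    have h5 := congrArg Complex.re h3
    simp at h5
    exact h5
  have h5 : t = t.im * Complex.I := by
    conv_lhs => rw [← Complex.re_add_im t, h4]
    simp
  have h6 : t * t = - m.det := by
    have h7 := congrArg (fun k => k *ᵥ w) (cay m ht)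
    simp only [← mulVec_mulVec, hw1, mulVec_smul, smul_mulVec, one_mulVec, smul_smul] at h7
    have h8 : (t * t - (- m.det)) • w = 0 := by rw [sub_smul, h7, sub_self]
    exact sub_eq_zero.1 ((smul_eq_zero.1 h8).resolve_right hw.2)
  refine ⟨-(2 * t.im * t.im), by nlinarith [mul_self_nonneg t.im], ?_⟩
  rw [cay m ht, trace_smul, Matrix.trace_one, ← h6, h5]
  push_cast
  simp only [Fintype.card_fin, smul_eq_mul, Complex.mul_im, Complex.ofReal_re, Complex.I_im,
    Complex.ofReal_im, Complex.I_re, mul_one, mul_zero, add_zero]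
  push_cast
  linear_combination (2 * (t.im : ℂ) * t.im) * Complex.I_mul_I

theorem comb_comb (S : M2) (c : Fin 2 → ℂ) :
    ∑ j, c j • ∑ i, S i j • p.u i = ∑ i, (S *ᵥ c) i • p.u i := by
  simp only [Finset.smul_sum, smul_smul, Matrix.mulVec, dotProduct, Finset.sum_smul]
  rw [Finset.sum_comm]
  exact Finset.sum_congr rfl fun i _ => Finset.sum_congr rfl fun j _ => by rw [mul_comm (S i j)]

theorem span_change {S : M2} (hS : S.det ≠ 0) :
    Submodule.span ℂ (Set.range fun j => ∑ i, S i j • p.u i) = p.W := by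
  apply le_antisymm
  · rw [Submodule.span_le]
    rintro _ ⟨j, rfl⟩
    exact p.mem_W_iff.2 ⟨fun i => S i j, rfl⟩
  · unfold W
    rw [Submodule.span_le]
    rintro _ ⟨j, rfl⟩
    rw [SetLike.mem_coe, Submodule.mem_span_range_iff_exists_fun]
    refine ⟨S⁻¹ *ᵥ Pi.single j 1, ?_⟩
    rw [comb_comb, mulVec_mulVec, Matrix.mul_nonsing_inv _ (isUnit_iff_ne_zero.2 hS), one_mulVec]
    rw [Finset.sum_eq_single j, Pi.single_eq_same, one_smul]
    · intro i _ hi
      rw [Pi.single_eq_of_ne hi, zero_smul]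
    · intro h
      exact absurd (Finset.mem_univ j) h

/-- Change of the basis. -/
def change (S : M2) (hS : S.det ≠ 0) : Pl A where
  u j := ∑ i, S i j • p.u i
  li := by
    rw [Fintype.linearIndependent_iff]
    intro c hc
    rw [comb_comb] at hc
    have h2 := p.co_comb (S *ᵥ c)
    rw [hc, map_zero] at h2
    have h3 : c = 0 := Matrix.eq_zero_of_mulVec_eq_zero hS h2.symm
    intro i
    rw [h3]
    rfl
  st := fun X hX j => by
    rw [p.span_change hS]
    exact p.cx_le_St _ (bc_mem hX) _ (p.mem_W_iff.2 ⟨_, rfl⟩)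
  irr := fun v hv h => by
    rw [p.span_change hS] at hv
    exact p.irr v hv h

theorem change_R {S : M2} (hS : S.det ≠ 0) {x : Module.End ℂ (ℂ ⊗[ℚ] A.H1)} (hx : x ∈ p.St)
    (hx' : x ∈ (p.change S hS).St) : p.R x * S = S * (p.change S hS).R x := by
  ext i j
  have h1 := p.R_comb hx (fun i => S i j)
  have h2 := (p.change S hS).R_spec hx' j
  have h3 : (p.change S hS).u j = ∑ i, S i j • p.u i := rfl
  rw [h3, h1] at h2
  have h4 : ∑ i, (p.change S hS).R x i j • (p.change S hS).u i =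
      ∑ i, (S *ᵥ fun i => (p.change S hS).R x i j) i • p.u i := by
    rw [← comb_comb]
    rfl
  rw [h4] at h2
  have h5 := congrArg p.co h2
  rw [p.co_comb, p.co_comb] at h5
  have h6 := congrFun h5 i
  simp only [Matrix.mulVec, dotProduct] at h6
  rw [Matrix.mul_apply, Matrix.mul_apply]
  exact h6

theorem change_tr {S : M2} (hS : S.det ≠ 0) {x : Module.End ℂ (ℂ ⊗[ℚ] A.H1)} (hx : x ∈ p.St)
    (hx' : x ∈ (p.change S hS).St) :
    ((p.change S hS).R x * (p.change S hS).R x).trace = (p.R x * p.R x).trace := by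
  have h1 := p.change_R hS hx hx'
  have hu : IsUnit S.det := isUnit_iff_ne_zero.2 hS
  have h2 : (p.change S hS).R x = S⁻¹ * (p.R x * S) := by
    rw [h1, ← mul_assoc, Matrix.nonsing_inv_mul _ hu, one_mul]
  rw [h2]
  have h3 : S⁻¹ * (p.R x * S) * (S⁻¹ * (p.R x * S)) = S⁻¹ * (p.R x * p.R x * S) := by
    calc S⁻¹ * (p.R x * S) * (S⁻¹ * (p.R x * S)) = S⁻¹ * (p.R x * (S * S⁻¹) * (p.R x * S)) := by
          simp only [mul_assoc]
      _ = S⁻¹ * (p.R x * p.R x * S) := by
          rw [Matrix.mul_nonsing_inv _ hu, mul_one, mul_assoc]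
  rw [h3, trace_mul_comm, mul_assoc, Matrix.mul_nonsing_inv _ hu, mul_one]

/-- A basis of eigenvectors of the complex structure. -/
theorem exists_eigen (hs : ¬ p.Scalar) : ∃ (S : M2) (hS : S.det ≠ 0),
    JC A ((p.change S hS).u 0) = Complex.I • (p.change S hS).u 0 ∧
    JC A ((p.change S hS).u 1) = (-Complex.I) • (p.change S hS).u 1 := by
  have hJ : JC A ∈ p.St := p.cx_le_St _ JC_mem
  have h1 : ∃ j, p.u j - Complex.I • JC A (p.u j) ≠ 0 := by
    by_contra hcon
    push Not at hcon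
    apply hs
    refine ⟨-Complex.I, fun j => ?_⟩
    have h2 := congrArg (fun v => (-Complex.I) • v) (hcon j)
    simp only [smul_sub, smul_smul, neg_mul, Complex.I_mul_I, neg_neg, one_smul, smul_zero] at h2
    exact (sub_eq_zero.1 h2).symm
  have h2 : ∃ j, p.u j + Complex.I • JC A (p.u j) ≠ 0 := by
    by_contra hcon
    push Not at hcon
    apply hs
    refine ⟨Complex.I, fun j => ?_⟩
    have h2 := congrArg (fun v => (Complex.I) • v) (hcon j)
    simp only [smul_add, smul_smul, Complex.I_mul_I, neg_one_smul, smul_zero] at h2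
    rw [← sub_eq_add_neg] at h2
    exact (sub_eq_zero.1 h2).symm
  obtain ⟨j, hj⟩ := h1
  obtain ⟨k, hk⟩ := h2
  set a := p.u j - Complex.I • JC A (p.u j) with ha
  set b := p.u k + Complex.I • JC A (p.u k) with hb
  have haW : a ∈ p.W := p.W.sub_mem (p.u_mem j) (p.W.smul_mem _ (hJ _ (p.u_mem j)))
  have hbW : b ∈ p.W := p.W.add_mem (p.u_mem k) (p.W.smul_mem _ (hJ _ (p.u_mem k)))
  have hJa : JC A a = Complex.I • a := by
    rw [ha, map_sub, map_smul, JC_sq, smul_sub, smul_smul, Complex.I_mul_I, neg_one_smul, smul_neg,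
      sub_neg_eq_add, sub_neg_eq_add, add_comm]
  have hJb : JC A b = (-Complex.I) • b := by
    rw [hb, map_add, map_smul, JC_sq, smul_add, smul_smul, neg_mul, Complex.I_mul_I, neg_neg,
      one_smul, smul_neg, neg_smul, add_comm]
  let S : M2 := Matrix.of fun i j => ![p.co a, p.co b] j i
  have hSa : ∑ i, S i 0 • p.u i = a := p.comb_co haW
  have hSb : ∑ i, S i 1 • p.u i = b := p.comb_co hbW
  have hS : S.det ≠ 0 := by
    intro hdet
    obtain ⟨c, hc, hc'⟩ := (Matrix.exists_mulVec_eq_zero_iff).2 hdet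
    have h3 := p.comb_comb S c
    rw [hc', Fin.sum_univ_two, hSa, hSb] at h3
    simp only [Pi.zero_apply, zero_smul, Finset.sum_const_zero] at h3
    have h4 := congrArg (JC A) h3
    rw [map_add, map_smul, map_smul, hJa, hJb, map_zero] at h4
    have h5 : c 0 • a = 0 := by
      have h6 : (2 * Complex.I) • (c 0 • a) = Complex.I • (c 0 • a + c 1 • b) +
          (c 0 • Complex.I • a + c 1 • (-Complex.I) • b) := by
        module
      rw [h3, h4, smul_zero, add_zero] at h6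
      exact (smul_eq_zero.1 h6).resolve_left (mul_ne_zero two_ne_zero Complex.I_ne_zero)
    have hc0 := (smul_eq_zero.1 h5).resolve_right hj
    rw [h5, zero_add] at h3
    have hc1 := (smul_eq_zero.1 h3).resolve_right hk
    apply hc
    ext i
    fin_cases i
    · exact hc0
    · exact hc1
  refine ⟨S, hS, ?_, ?_⟩
  · change JC A (∑ i, S i 0 • p.u i) = Complex.I • ∑ i, S i 0 • p.u i
    rw [hSa, hJa]
  · change JC A (∑ i, S i 1 • p.u i) = (-Complex.I) • ∑ i, S i 1 • p.u i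
    rw [hSb, hJb]

/-- The matrices on a plane with a basis of eigenvectors. -/
theorem exists_form (h0 : JC A (p.u 0) = Complex.I • p.u 0)
    (h1 : JC A (p.u 1) = (-Complex.I) • p.u 1) : ∃ k : ℝ, 0 < k ∧ ∀ X ∈ A.NA,
      (p.R (X.baseChange ℂ) 0 0).re = 0 ∧ (p.R (X.baseChange ℂ) 1 1).re = 0 ∧
        p.R (X.baseChange ℂ) 1 0 = k * (starRingEnd ℂ) (p.R (X.baseChange ℂ) 0 1) := by
  have hu0 : p.u 0 ≠ 0 := p.li.ne_zero 0
  have hu1 : p.u 1 ≠ 0 := p.li.ne_zero 1
  obtain ⟨P, hP, hP1⟩ := HH_pos hu0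
  obtain ⟨Q, hQ, hQ1⟩ := HH_pos hu1
  rw [h0, HH_smul_right] at hP1
  rw [h1, HH_smul_right] at hQ1
  simp only [map_neg, Complex.conj_I, neg_neg] at hP1 hQ1
  have e0 : HH A (p.u 0) (p.u 0) = Complex.I * P := by
    rw [← hP1]
    linear_combination (HH A (p.u 0) (p.u 0)) * Complex.I_mul_I
  have e1 : HH A (p.u 1) (p.u 1) = -(Complex.I * Q) := by
    rw [← hQ1]
    linear_combination (HH A (p.u 1) (p.u 1)) * Complex.I_mul_I
  have e01 : HH A (p.u 0) (p.u 1) = 0 := by
    have h2 := HH_JC (p.u 0) (p.u 1)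
    rw [h0, h1, HH_smul_left, HH_smul_right] at h2
    simp only [map_neg, Complex.conj_I, neg_neg] at h2
    have h3 : (2 * Complex.I) * HH A (p.u 0) (p.u 1) = 0 := by linear_combination h2
    exact (mul_eq_zero.1 h3).resolve_left (mul_ne_zero two_ne_zero Complex.I_ne_zero)
  have e10 : HH A (p.u 1) (p.u 0) = 0 := by
    have h2 := HH_JC (p.u 1) (p.u 0)
    rw [h0, h1, HH_smul_left, HH_smul_right] at h2
    simp only [Complex.conj_I] at h2
    have h3 : (-2 * Complex.I) * HH A (p.u 1) (p.u 0) = 0 := by linear_combination h2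
    exact (mul_eq_zero.1 h3).resolve_left
      (mul_ne_zero (neg_ne_zero.2 two_ne_zero) Complex.I_ne_zero)
  refine ⟨P / Q, div_pos hP hQ, fun X hX => ?_⟩
  have hSt := p.cx_le_St _ (bc_mem hX)
  have s0 := p.R_spec hSt 0
  have s1 := p.R_spec hSt 1
  rw [Fin.sum_univ_two] at s0 s1
  set m := p.R (X.baseChange ℂ)
  have hPC : (P : ℂ) ≠ 0 := by exact_mod_cast hP.ne'
  have hQC : (Q : ℂ) ≠ 0 := by exact_mod_cast hQ.ne'
  have f0 := HH_skew hX (p.u 0) (p.u 0)
  have f1 := HH_skew hX (p.u 1) (p.u 1)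
  have f2 := HH_skew hX (p.u 0) (p.u 1)
  simp only [s0, s1, HH_add_left, HH_add_right, HH_smul_left, HH_smul_right, e0, e1, e01, e10,
    mul_zero, add_zero, zero_add] at f0 f1 f2
  refine ⟨?_, ?_, ?_⟩
  · have h3 : (m 0 0 + (starRingEnd ℂ) (m 0 0)) * (Complex.I * P) = 0 := by
      linear_combination f0
    have h4 := (mul_eq_zero.1 h3).resolve_right (mul_ne_zero Complex.I_ne_zero hPC)
    have h5 := congrArg Complex.re h4
    simp at h5
    exact h5
  · have h3 : (m 1 1 + (starRingEnd ℂ) (m 1 1)) * (Complex.I * Q) = 0 := by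
      linear_combination -f1
    have h4 := (mul_eq_zero.1 h3).resolve_right (mul_ne_zero Complex.I_ne_zero hQC)
    have h5 := congrArg Complex.re h4
    simp at h5
    exact h5
  · push_cast
    have h3 : Complex.I * (m 1 0 * Q - (starRingEnd ℂ) (m 0 1) * P) = 0 := by
      linear_combination -f2
    have h4 := (mul_eq_zero.1 h3).resolve_left Complex.I_ne_zero
    field_simp
    linear_combination h4

/-- **Noncompact planes**, with a basis of eigenvectors. -/
theorem trace_pos_aux (h0 : JC A (p.u 0) = Complex.I • p.u 0)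
    (h1 : JC A (p.u 1) = (-Complex.I) • p.u 1) {𝔮 : Submodule ℚ (Module.End ℚ A.H1)}
    (h : A.Full 𝔮) : ∃ X ∈ der 𝔮, ∃ r : ℝ, 0 < r ∧
      (p.R (X.baseChange ℂ) * p.R (X.baseChange ℂ)).trace = r := by
  obtain ⟨k, hk, hf⟩ := p.exists_form h0 h1
  have hon := p.onto h
  have htr : ∀ X ∈ der 𝔮, (p.R (X.baseChange ℂ)).trace = 0 := fun X hX =>
    tr_zero h.cx_perfect (p.isRep (cx_der_le h)) (bc_mem hX)
  -- an element with a nonzero diagonal
  obtain ⟨X₀, hX₀, hne₀⟩ : ∃ X ∈ der 𝔮, p.R (X.baseChange ℂ) 0 0 ≠ 0 := by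
    by_contra hcon
    push Not at hcon
    have key : ∀ x ∈ cx (der 𝔮), p.R x 0 0 = 0 := by
      intro x hx
      induction hx using Submodule.span_induction with
      | mem x hx =>
        obtain ⟨X, hX, rfl⟩ := hx
        exact hcon X hX
      | zero => rw [map_zero]; rfl
      | add a b _ _ ha hb => rw [map_add, Matrix.add_apply, ha, hb, add_zero]
      | smul c a _ ha => rw [map_smul, Matrix.smul_apply, ha, smul_zero]
    obtain ⟨x, hx, hx'⟩ := hon mH tr_mH
    have h2 := key x hx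
    rw [hx'] at h2
    simp [mH] at h2
  set m₀ := p.R (X₀.baseChange ℂ) with hm₀
  obtain ⟨X₁, hX₁, hne₁⟩ : ∃ X ∈ der 𝔮, p.R (X.baseChange ℂ) 0 1 * m₀ 0 0 ≠
      p.R (X.baseChange ℂ) 0 0 * m₀ 0 1 := by
    by_contra hcon
    push Not at hcon
    have key : ∀ x ∈ cx (der 𝔮), p.R x 0 1 * m₀ 0 0 = p.R x 0 0 * m₀ 0 1 := by
      intro x hx
      induction hx using Submodule.span_induction with
      | mem x hx =>
        obtain ⟨X, hX, rfl⟩ := hx
        exact hcon X hX
      | zero => rw [map_zero]; simp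
      | add a b _ _ ha hb =>
        rw [map_add, Matrix.add_apply, Matrix.add_apply, add_mul, add_mul, ha, hb]
      | smul c a _ ha =>
        rw [map_smul, Matrix.smul_apply, Matrix.smul_apply, smul_mul_assoc, smul_mul_assoc, ha]
    obtain ⟨x, hx, hx'⟩ := hon mE tr_mE
    have h2 := key x hx
    rw [hx'] at h2
    simp [mE] at h2
    exact hne₀ h2
  set m₁ := p.R (X₁.baseChange ℂ) with hm₁
  have hX₀N := h.le (h.der_le hX₀)
  have hX₁N := h.le (h.der_le hX₁)
  obtain ⟨a0, -, a1⟩ := hf X₀ hX₀N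
  obtain ⟨b0, -, b1⟩ := hf X₁ hX₁N
  rw [← hm₀] at a0 a1
  rw [← hm₁] at b0 b1
  have t0 : m₀ 1 1 = - m₀ 0 0 := by
    have h2 := htr X₀ hX₀
    rw [← hm₀, Matrix.trace_fin_two] at h2
    linear_combination h2
  have t1 : m₁ 1 1 = - m₁ 0 0 := by
    have h2 := htr X₁ hX₁
    rw [← hm₁, Matrix.trace_fin_two] at h2
    linear_combination h2
  -- the real polynomial
  let f : ℝ → ℝ := fun t => -2 * ((m₁ 0 0).im - t * (m₀ 0 0).im) ^ 2 +
    2 * k * Complex.normSq (m₁ 0 1 - (t : ℂ) * m₀ 0 1)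
  have hfc : Continuous f := by
    unfold f
    have h2 : Continuous fun t : ℝ => Complex.normSq (m₁ 0 1 - (t : ℂ) * m₀ 0 1) :=
      Complex.continuous_normSq.comp (by fun_prop)
    fun_prop
  have him : (m₀ 0 0).im ≠ 0 := fun h2 => hne₀ (Complex.ext a0 h2)
  have hpos : 0 < f ((m₁ 0 0).im / (m₀ 0 0).im) := by
    unfold f
    have h2 : (m₁ 0 0).im - (m₁ 0 0).im / (m₀ 0 0).im * (m₀ 0 0).im = 0 := by
      field_simp
      ring
    rw [h2]
    have h3 : 0 < Complex.normSq (m₁ 0 1 - (((m₁ 0 0).im / (m₀ 0 0).im : ℝ) : ℂ) * m₀ 0 1) := by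
      rw [Complex.normSq_pos]
      intro h4
      apply hne₁
      have h5 : m₁ 0 0 = (((m₁ 0 0).im / (m₀ 0 0).im : ℝ) : ℂ) * m₀ 0 0 := by
        apply Complex.ext
        · rw [b0, Complex.re_ofReal_mul, a0, mul_zero]
        · rw [Complex.im_ofReal_mul]
          field_simp
      have h6 : m₁ 0 1 = (((m₁ 0 0).im / (m₀ 0 0).im : ℝ) : ℂ) * m₀ 0 1 := sub_eq_zero.1 h4
      generalize (((m₁ 0 0).im / (m₀ 0 0).im : ℝ) : ℂ) = s at h5 h6
      rw [h5, h6]
      ring
    have h4 := mul_pos (mul_pos (two_pos (α := ℝ)) hk) h3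
    nlinarith
  obtain ⟨q, hq⟩ : ∃ q : ℚ, 0 < f q := by
    have h2 : IsOpen {t | 0 < f t} := isOpen_lt continuous_const hfc
    exact (Rat.isDenseEmbedding_coe_real.dense.exists_mem_open h2 ⟨_, hpos⟩)
  refine ⟨X₁ - q • X₀, Submodule.sub_mem _ hX₁ (Submodule.smul_mem _ _ hX₀), f q, hq, ?_⟩
  have hR : p.R ((X₁ - q • X₀).baseChange ℂ) = m₁ - (q : ℂ) • m₀ := by
    rw [LinearMap.baseChange_sub, map_sub]
    congr 1
    rw [LinearMap.baseChange_smul, ← Rat.cast_smul_eq_qsmul ℂ q, map_smul]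
  rw [hR, Matrix.trace_fin_two, Matrix.mul_apply, Matrix.mul_apply, Fin.sum_univ_two,
    Fin.sum_univ_two]
  simp only [Matrix.sub_apply, Matrix.smul_apply, smul_eq_mul, t0, t1, a1, b1]
  have e1 : m₁ 0 0 = (m₁ 0 0).im * Complex.I := by
    conv_lhs => rw [← Complex.re_add_im (m₁ 0 0), b0]
    simp
  have e2 : m₀ 0 0 = (m₀ 0 0).im * Complex.I := by
    conv_lhs => rw [← Complex.re_add_im (m₀ 0 0), a0]
    simp
  have e3 : ((Complex.normSq (m₁ 0 1 - ((q : ℝ) : ℂ) * m₀ 0 1) : ℝ) : ℂ) =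
      (m₁ 0 1 - (q : ℂ) * m₀ 0 1) * ((starRingEnd ℂ) (m₁ 0 1) - (q : ℂ) * (starRingEnd ℂ) (m₀ 0 1)) := by
    rw [← Complex.mul_conj, map_sub, map_mul, Complex.conj_ofReal]
    norm_num
  unfold f
  push_cast at e3 ⊢
  rw [e3]
  generalize (m₁ 0 0).im = α at e1
  generalize (m₀ 0 0).im = β at e2
  rw [e1, e2]
  linear_combination (2 * ((α : ℂ) - q * β) ^ 2) * Complex.I_mul_I

/-- **Noncompact planes.** -/
theorem trace_pos (hs : ¬ p.Scalar) {𝔮 : Submodule ℚ (Module.End ℚ A.H1)}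
    (h : A.Full 𝔮) : ∃ X ∈ der 𝔮, ∃ r : ℝ, 0 < r ∧
      (p.R (X.baseChange ℂ) * p.R (X.baseChange ℂ)).trace = r := by
  obtain ⟨S, hS, h0, h1⟩ := p.exists_eigen hs
  obtain ⟨X, hX, r, hr, h2⟩ := (p.change S hS).trace_pos_aux h0 h1 h
  have hX' : X.baseChange ℂ ∈ cx A.NA := bc_mem (h.le (h.der_le hX))
  exact ⟨X, hX, r, hr, by rw [← h2, p.change_tr hS (p.cx_le_St _ hX')
    ((p.change S hS).cx_le_St _ hX')]⟩

/-! ### Automorphisms of the complex numbers -/

end Pl

/-- the action of the automorphisms on the complex homology -/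
def sg (A : AbVar g) (σ : ℂ →+* ℂ) : (ℂ ⊗[ℚ] A.H1) →ₗ[ℚ] (ℂ ⊗[ℚ] A.H1) :=
  (σ.toAddMonoidHom.toRatLinearMap).rTensor A.H1

theorem sg_tmul (σ : ℂ →+* ℂ) (z : ℂ) (v : A.H1) : sg A σ (z ⊗ₜ v) = σ z ⊗ₜ v := rfl

theorem sg_smul (σ : ℂ →+* ℂ) (c : ℂ) (v : ℂ ⊗[ℚ] A.H1) : sg A σ (c • v) = σ c • sg A σ v := by
  induction v using TensorProduct.induction_on with
  | zero => simp
  | tmul z v =>
    rw [TensorProduct.smul_tmul', sg_tmul, sg_tmul, TensorProduct.smul_tmul', smul_eq_mul,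
      smul_eq_mul, map_mul]
  | add a b ha hb => rw [smul_add, map_add, map_add, ha, hb, smul_add]

theorem sg_bc (σ : ℂ →+* ℂ) (X : Module.End ℚ A.H1) (v : ℂ ⊗[ℚ] A.H1) :
    sg A σ (X.baseChange ℂ v) = X.baseChange ℂ (sg A σ v) := by
  induction v using TensorProduct.induction_on with
  | zero => simp
  | tmul z v => rw [LinearMap.baseChange_tmul, sg_tmul, sg_tmul, LinearMap.baseChange_tmul]
  | add a b ha hb => rw [map_add, map_add, map_add, map_add, ha, hb]

theorem sg_sg (σ : ℂ ≃+* ℂ) (v : ℂ ⊗[ℚ] A.H1) :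
    sg A σ.symm.toRingHom (sg A σ.toRingHom v) = v := by
  induction v using TensorProduct.induction_on with
  | zero => simp
  | tmul z v => simp [sg_tmul]
  | add a b ha hb => rw [map_add, map_add, ha, hb]

theorem sg_sg' (σ : ℂ ≃+* ℂ) (v : ℂ ⊗[ℚ] A.H1) :
    sg A σ.toRingHom (sg A σ.symm.toRingHom v) = v := by
  induction v using TensorProduct.induction_on with
  | zero => simp
  | tmul z v => simp [sg_tmul]
  | add a b ha hb => rw [map_add, map_add, ha, hb]

namespace Pl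

variable (p q : Pl A)

theorem sg_mem (σ : ℂ ≃+* ℂ) {v : ℂ ⊗[ℚ] A.H1}
    (hv : v ∈ Submodule.span ℂ (Set.range fun j => sg A σ.toRingHom (p.u j))) :
    sg A σ.symm.toRingHom v ∈ p.W := by
  induction hv using Submodule.span_induction with
  | mem v hv =>
    obtain ⟨j, rfl⟩ := hv
    simp only
    rw [sg_sg]
    exact p.u_mem j
  | zero => rw [map_zero]; exact Submodule.zero_mem _
  | add a b _ _ ha hb => rw [map_add]; exact Submodule.add_mem _ ha hb
  | smul c a _ ha => rw [sg_smul]; exact Submodule.smul_mem _ _ ha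

/-- the conjugate plane -/
def conj (σ : ℂ ≃+* ℂ) : Pl A where
  u j := sg A σ.toRingHom (p.u j)
  li := by
    rw [Fintype.linearIndependent_iff]
    intro c hc
    have h1 := congrArg (sg A σ.symm.toRingHom) hc
    simp only [map_sum, sg_smul, sg_sg, map_zero] at h1
    have h2 := Fintype.linearIndependent_iff.1 p.li _ h1
    intro i
    have h3 := h2 i
    simpa using h3
  st := fun X hX j => by
    rw [← sg_bc, p.R_spec (p.cx_le_St _ (bc_mem hX)), map_sum]
    refine Submodule.sum_mem _ fun i _ => ?_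
    rw [sg_smul]
    exact Submodule.smul_mem _ _ (Submodule.subset_span ⟨i, rfl⟩)
  irr := fun v hv h => by
    have h1 : sg A σ.symm.toRingHom v = 0 := by
      refine p.irr _ (p.sg_mem σ hv) fun X hX => ?_
      obtain ⟨c, hc⟩ := h X hX
      exact ⟨σ.symm.toRingHom c, by rw [← sg_bc, hc, sg_smul]⟩
    rw [← sg_sg' σ v, h1, map_zero]

theorem conj_u (σ : ℂ ≃+* ℂ) (j : Fin 2) : (p.conj σ).u j = sg A σ.toRingHom (p.u j) := rfl

theorem conj_R (σ : ℂ ≃+* ℂ) {X : Module.End ℚ A.H1} (hX : X ∈ A.NA) :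
    (p.conj σ).R (X.baseChange ℂ) = (p.R (X.baseChange ℂ)).map σ := by
  ext i j
  have h1 := p.R_spec (p.cx_le_St _ (bc_mem hX)) j
  have h2 := congrArg (sg A σ.toRingHom) h1
  rw [sg_bc, map_sum] at h2
  simp only [sg_smul] at h2
  have h3 := (p.conj σ).R_spec ((p.conj σ).cx_le_St _ (bc_mem hX)) j
  simp only [conj_u] at h3
  rw [h3] at h2
  have h4 := congrArg (p.conj σ).co h2
  have h5 : ∀ c : Fin 2 → ℂ, (p.conj σ).co (∑ i, c i • sg A σ.toRingHom (p.u i)) = c :=
    fun c => (p.conj σ).co_comb c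
  rw [h5 (fun i => (p.conj σ).R (X.baseChange ℂ) i j),
    h5 (fun i => σ.toRingHom (p.R (X.baseChange ℂ) i j))] at h4
  exact congrFun h4 i

theorem conj_tr (σ : ℂ ≃+* ℂ) {X : Module.End ℚ A.H1} (hX : X ∈ A.NA) :
    ((p.conj σ).R (X.baseChange ℂ) * (p.conj σ).R (X.baseChange ℂ)).trace =
      σ (p.R (X.baseChange ℂ) * p.R (X.baseChange ℂ)).trace := by
  rw [p.conj_R σ hX]
  simp only [Matrix.trace_fin_two, Matrix.mul_apply, Fin.sum_univ_two, Matrix.map_apply, map_add,
    map_mul]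

/-- **Planes which are separated by the Hodge type** of conjugates. -/
theorem apart_of_hodge {p q : Pl A} (σ : ℂ ≃+* ℂ) (hp : (p.conj σ).Scalar)
    (hq : ¬ (q.conj σ).Scalar) : Apart p q := by
  rintro 𝔮 h𝔮 ⟨k, hk, h1⟩
  obtain ⟨X, hX, r, hr, h2⟩ := (q.conj σ).trace_pos hq h𝔮
  have hXN := h𝔮.le (h𝔮.der_le hX)
  have ht : ((p.conj σ).R (X.baseChange ℂ)).trace = 0 :=
    tr_zero h𝔮.cx_perfect ((p.conj σ).isRep (cx_der_le h𝔮)) (bc_mem hX)
  obtain ⟨s, hs, h3⟩ := (p.conj σ).trace_nonpos hp hXN ht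
  rw [conj_tr _ _ hXN] at h2 h3
  have hu : IsUnit k.det := isUnit_iff_ne_zero.2 hk
  have h4 := h1 _ (bc_mem hX)
  have h5 : (p.R (X.baseChange ℂ) * p.R (X.baseChange ℂ)).trace =
      (q.R (X.baseChange ℂ) * q.R (X.baseChange ℂ)).trace := by
    have h6 : q.R (X.baseChange ℂ) = k⁻¹ * (p.R (X.baseChange ℂ) * k) := by
      rw [← h4, ← mul_assoc, Matrix.nonsing_inv_mul _ hu, one_mul]
    generalize p.R (X.baseChange ℂ) = m at h6 ⊢
    generalize q.R (X.baseChange ℂ) = n at h6 ⊢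
    have h7 : n * n = k⁻¹ * (m * m * k) := by
      rw [h6]
      calc k⁻¹ * (m * k) * (k⁻¹ * (m * k)) = k⁻¹ * (m * (k * k⁻¹) * (m * k)) := by
            simp only [mul_assoc]
        _ = k⁻¹ * (m * m * k) := by
            rw [Matrix.mul_nonsing_inv _ hu, mul_one, mul_assoc]
    rw [h7, trace_mul_comm k⁻¹, mul_assoc, Matrix.mul_nonsing_inv _ hu, mul_one]
  rw [← h5, h3] at h2
  have h8 : s = r := by exact_mod_cast h2
  linarith

end Pl

end Pool.Agent.V8H77.DP
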