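import Pool.Agent.V8H77.DP.Sl2
import Pool.Agent.Y102.V12

set_option autoImplicit false
set_option linter.unusedSectionVars false

/-!
# Planes in the homology of an abelian variety which are stable under the Lie algebra
-/

open Module Function TensorProduct Matrix

noncomputable section

namespace Pool.Agent.V8H77.DP

open Pool.Agent.Y102 Pool.Agent.W516.DR Pool.Agent.H204R3.GP Pool.Agent.W516.KC
  Pool.Agent.H204R3.SP

variable {g : ℕ} {A : AbVar g}

/-- An irreducible plane in the complex homology, with a basis. -/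
structure Pl (A : AbVar g) where
  /-- the basis -/
  u : Fin 2 → ℂ ⊗[ℚ] A.H1
  li : LinearIndependent ℂ u
  st : ∀ X ∈ A.NA, ∀ j, X.baseChange ℂ (u j) ∈ Submodule.span ℂ (Set.range u)
  irr : ∀ v ∈ Submodule.span ℂ (Set.range u), (∀ X ∈ A.NA, ∃ c : ℂ, X.baseChange ℂ v = c • v) →
    v = 0

namespace Pl

variable (p q : Pl A)

/-- the plane -/
def W : Submodule ℂ (ℂ ⊗[ℚ] A.H1) := Submodule.span ℂ (Set.range p.u)

theorem exists_co : ∃ co : (ℂ ⊗[ℚ] A.H1) →ₗ[ℂ] (Fin 2 → ℂ),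
    co.comp (Fintype.linearCombination ℂ p.u) = LinearMap.id :=
  LinearMap.exists_leftInverse_of_injective _
    (LinearMap.ker_eq_bot.2 (p.li.fintypeLinearCombination_injective))

/-- coordinates on the plane -/
def co : (ℂ ⊗[ℚ] A.H1) →ₗ[ℂ] (Fin 2 → ℂ) := p.exists_co.choose

theorem co_comb (c : Fin 2 → ℂ) : p.co (∑ i, c i • p.u i) = c := by
  have h := congrArg (fun f => f c) p.exists_co.choose_spec
  simp only [LinearMap.comp_apply, Fintype.linearCombination_apply, LinearMap.id_apply] at h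
  exact h

theorem mem_W_iff {v : ℂ ⊗[ℚ] A.H1} : v ∈ p.W ↔ ∃ c : Fin 2 → ℂ, ∑ i, c i • p.u i = v :=
  Submodule.mem_span_range_iff_exists_fun ℂ

theorem u_mem (j : Fin 2) : p.u j ∈ p.W := Submodule.subset_span ⟨j, rfl⟩

theorem comb_co {v : ℂ ⊗[ℚ] A.H1} (hv : v ∈ p.W) : ∑ i, p.co v i • p.u i = v := by
  obtain ⟨c, rfl⟩ := p.mem_W_iff.1 hv
  rw [p.co_comb]

/-- the endomorphisms which preserve the plane -/
def St : Subalgebra ℂ (Module.End ℂ (ℂ ⊗[ℚ] A.H1)) where
  carrier := {x | ∀ v ∈ p.W, x v ∈ p.W}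
  mul_mem' := fun {a b} ha hb v hv => ha _ (hb v hv)
  add_mem' := fun {a b} ha hb v hv => p.W.add_mem (ha v hv) (hb v hv)
  algebraMap_mem' := fun c v hv => by
    rw [Module.algebraMap_end_apply]
    exact p.W.smul_mem c hv

theorem mem_St {x : Module.End ℂ (ℂ ⊗[ℚ] A.H1)} : x ∈ p.St ↔ ∀ v ∈ p.W, x v ∈ p.W := Iff.rfl

theorem mem_St' {x : Module.End ℂ (ℂ ⊗[ℚ] A.H1)} (h : ∀ j, x (p.u j) ∈ p.W) : x ∈ p.St := by
  intro v hv
  obtain ⟨c, rfl⟩ := p.mem_W_iff.1 hv
  rw [map_sum]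
  refine Submodule.sum_mem _ fun i _ => ?_
  rw [map_smul]
  exact Submodule.smul_mem _ _ (h i)

theorem cx_le_St : ∀ x ∈ cx A.NA, x ∈ p.St := by
  intro x hx
  induction hx using Submodule.span_induction with
  | mem x hx =>
    obtain ⟨X, hX, rfl⟩ := hx
    exact p.mem_St' (p.st X hX)
  | zero => exact Subalgebra.zero_mem _
  | add a b _ _ ha hb => exact Subalgebra.add_mem _ ha hb
  | smul c a _ ha => exact Subalgebra.smul_mem _ ha c

/-- the matrix of an endomorphism on the plane -/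
def R : Module.End ℂ (ℂ ⊗[ℚ] A.H1) →ₗ[ℂ] M2 where
  toFun x := Matrix.of fun i j => p.co (x (p.u j)) i
  map_add' x y := by
    ext i j
    simp
  map_smul' c x := by
    ext i j
    simp

theorem R_apply (x : Module.End ℂ (ℂ ⊗[ℚ] A.H1)) (i j : Fin 2) :
    p.R x i j = p.co (x (p.u j)) i := rfl

theorem R_spec {x : Module.End ℂ (ℂ ⊗[ℚ] A.H1)} (hx : x ∈ p.St) (j : Fin 2) :
    x (p.u j) = ∑ i, p.R x i j • p.u i := (p.comb_co (hx _ (p.u_mem j))).symm

theorem R_comb {x : Module.End ℂ (ℂ ⊗[ℚ] A.H1)} (hx : x ∈ p.St) (c : Fin 2 → ℂ) :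
    x (∑ j, c j • p.u j) = ∑ i, (p.R x *ᵥ c) i • p.u i := by
  rw [map_sum]
  simp only [map_smul]
  rw [Finset.sum_congr rfl fun j _ => by rw [p.R_spec hx j, Finset.smul_sum], Finset.sum_comm]
  refine Finset.sum_congr rfl fun i _ => ?_
  rw [Matrix.mulVec, dotProduct, Finset.sum_smul]
  refine Finset.sum_congr rfl fun j _ => ?_
  rw [smul_smul, mul_comm (c j)]

theorem R_mul {x y : Module.End ℂ (ℂ ⊗[ℚ] A.H1)} (hx : x ∈ p.St) (hy : y ∈ p.St) :
    p.R (x * y) = p.R x * p.R y := by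
  ext i j
  rw [R_apply, Module.End.mul_apply, p.R_spec hy j, p.R_comb hx, p.co_comb, Matrix.mul_apply,
    Matrix.mulVec, dotProduct]

theorem R_one : p.R 1 = 1 := by
  ext i j
  rw [R_apply, Module.End.one_apply]
  have h : p.u j = ∑ i, (Pi.single j (1 : ℂ) : Fin 2 → ℂ) i • p.u i := by
    rw [Finset.sum_eq_single j, Pi.single_eq_same, one_smul]
    · intro i _ hi
      rw [Pi.single_eq_of_ne hi, zero_smul]
    · intro h
      exact absurd (Finset.mem_univ j) h
  conv_lhs => rw [h]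
  rw [p.co_comb, Matrix.one_apply, Pi.single_apply]

theorem R_br {x y : Module.End ℂ (ℂ ⊗[ℚ] A.H1)} (hx : x ∈ p.St) (hy : y ∈ p.St) :
    p.R (x * y - y * x) = p.R x * p.R y - p.R y * p.R x := by
  rw [map_sub, p.R_mul hx hy, p.R_mul hy hx]

theorem R_algebraMap (c : ℂ) : p.R (algebraMap ℂ _ c) = c • (1 : M2) := by
  rw [Algebra.algebraMap_eq_smul_one, map_smul, p.R_one]

theorem isRep {D : Submodule ℂ (Module.End ℂ (ℂ ⊗[ℚ] A.H1))} (hD : D ≤ cx A.NA) : IsRep D p.R :=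
  fun _ hx _ hy => p.R_br (p.cx_le_St _ (hD hx)) (p.cx_le_St _ (hD hy))

/-- If two elements have the same matrix they agree on the plane. -/
theorem eq_on {x y : Module.End ℂ (ℂ ⊗[ℚ] A.H1)} (hx : x ∈ p.St) (hy : y ∈ p.St)
    (h : p.R x = p.R y) (j : Fin 2) : x (p.u j) = y (p.u j) := by
  rw [p.R_spec hx, p.R_spec hy, h]

end Pl

/-- Commuting two by two matrices have a common eigenvector. -/
theorem exists_common {T : Set M2} (h : ∀ x ∈ T, ∀ y ∈ T, x * y = y * x) :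
    ∃ c : Fin 2 → ℂ, c ≠ 0 ∧ ∀ x ∈ T, ∃ t : ℂ, x *ᵥ c = t • c := by
  by_cases h0 : ∀ x ∈ T, ∃ t : ℂ, x = t • (1 : M2)
  · refine ⟨Pi.single 0 1, fun h1 => ?_, fun x hx => ?_⟩
    · have h2 := congrFun h1 0
      simp at h2
    · obtain ⟨t, rfl⟩ := h0 x hx
      exact ⟨t, by rw [smul_mulVec, one_mulVec]⟩
  · push Not at h0
    obtain ⟨x, hx, hne⟩ := h0
    obtain ⟨t, ht⟩ := Module.End.exists_eigenvalue (K := ℂ) (Matrix.toLin' x)
    obtain ⟨c, hc⟩ := ht.exists_hasEigenvector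
    have hc1 : x *ᵥ c = t • c := by
      have := hc.apply_eq_smul
      rwa [Matrix.toLin'_apply] at this
    refine ⟨c, hc.2, fun y hy => ?_⟩
    set N := x - t • (1 : M2) with hN
    have hN0 : N ≠ 0 := fun h => hne t (sub_eq_zero.1 h)
    have h1 : N *ᵥ c = 0 := by
      rw [hN, sub_mulVec, hc1, smul_mulVec, one_mulVec, sub_self]
    have h2 : N *ᵥ (y *ᵥ c) = 0 := by
      have h3 : N * y = y * N := by
        rw [hN, sub_mul, mul_sub, h x hx y hy, smul_mul_assoc, mul_smul_comm, one_mul, mul_one]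
      rw [mulVec_mulVec, h3, ← mulVec_mulVec, h1, mulVec_zero]
    generalize y *ᵥ c = d at h2 ⊢
    have hc0 := hc.2
    clear_value N
    have key : c 0 * d 1 = c 1 * d 0 := by
      obtain ⟨i, hi⟩ : ∃ i, N i 0 ≠ 0 ∨ N i 1 ≠ 0 := by
        by_contra hcon
        push Not at hcon
        apply hN0
        ext i j
        fin_cases j
        · exact (hcon i).1
        · exact (hcon i).2
      have h4 := congrFun h1 i
      have h5 := congrFun h2 i
      simp only [Matrix.mulVec, dotProduct, Fin.sum_univ_two, Pi.zero_apply] at h4 h5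
      rcases hi with hi | hi
      · have h6 : N i 0 * (c 0 * d 1 - c 1 * d 0) = 0 := by
          linear_combination d 1 * h4 - c 1 * h5
        exact sub_eq_zero.1 ((mul_eq_zero.1 h6).resolve_left hi)
      · have h6 : N i 1 * (c 0 * d 1 - c 1 * d 0) = 0 := by
          linear_combination (- d 0) * h4 + c 0 * h5
        exact sub_eq_zero.1 ((mul_eq_zero.1 h6).resolve_left hi)
    by_cases h6 : c 0 = 0
    · have h7 : c 1 ≠ 0 := by
        intro h7
        apply hc0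
        ext i
        fin_cases i
        · exact h6
        · exact h7
      refine ⟨d 1 / c 1, ?_⟩
      ext i
      fin_cases i
      · simp only [Fin.zero_eta, Pi.smul_apply, smul_eq_mul]
        field_simp
        linear_combination -key
      · simp only [Fin.mk_one, Pi.smul_apply, smul_eq_mul]
        field_simp
    · refine ⟨d 0 / c 0, ?_⟩
      ext i
      fin_cases i
      · simp only [Fin.zero_eta, Pi.smul_apply, smul_eq_mul]
        field_simp
      · simp only [Fin.mk_one, Pi.smul_apply, smul_eq_mul]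
        field_simp
        linear_combination key

namespace Pl

variable (p q : Pl A) {𝔮 : Submodule ℚ (Module.End ℚ A.H1)}

theorem br_mem_der : ∀ x ∈ cx 𝔮, ∀ y ∈ cx 𝔮, x * y - y * x ∈ cx (der 𝔮) :=
  cx_br (T := cx (der 𝔮)) fun X hX Y hY => by
    rw [← bc_br]
    exact bc_mem (Submodule.subset_span ⟨X, hX, Y, hY, rfl⟩)

theorem cx_der_le (h : A.Full 𝔮) : cx (der 𝔮) ≤ cx A.NA := cx_mono (h.der_le.trans h.le)

/-- **A full subalgebra acts on the plane through all matrices with trace zero.** -/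
theorem onto (h : A.Full 𝔮) : Onto (cx (der 𝔮)) p.R := by
  refine onto_of_perf h.cx_perfect (p.isRep (cx_der_le h)) ?_
  by_contra hcon
  push Not at hcon
  have hc : ∀ m ∈ {m | ∃ x ∈ cx 𝔮, p.R x = m}, ∀ m' ∈ {m | ∃ x ∈ cx 𝔮, p.R x = m},
      m * m' = m' * m := by
    rintro _ ⟨x, hx, rfl⟩ _ ⟨y, hy, rfl⟩
    rw [← sub_eq_zero, ← p.R_br (p.cx_le_St _ (cx_mono h.le hx)) (p.cx_le_St _ (cx_mono h.le hy))]
    exact hcon _ (br_mem_der x hx y hy)
  obtain ⟨c, hc0, hc1⟩ := exists_common hc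
  have h1 : ∀ x ∈ Algebra.adjoin ℂ (cx 𝔮 : Set (Module.End ℂ (ℂ ⊗[ℚ] A.H1))),
      ∃ t : ℂ, x (∑ j, c j • p.u j) = t • ∑ j, c j • p.u j := by
    intro x hx
    induction hx using Algebra.adjoin_induction with
    | mem x hx =>
      obtain ⟨t, ht⟩ := hc1 (p.R x) ⟨x, hx, rfl⟩
      refine ⟨t, ?_⟩
      rw [p.R_comb (p.cx_le_St _ (cx_mono h.le hx)), ht, Finset.smul_sum]
      refine Finset.sum_congr rfl fun i _ => ?_
      rw [Pi.smul_apply, smul_eq_mul, mul_smul]
    | algebraMap t => exact ⟨t, by rw [Module.algebraMap_end_apply]⟩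
    | add x y _ _ hx hy =>
      obtain ⟨t, ht⟩ := hx
      obtain ⟨s, hs⟩ := hy
      exact ⟨t + s, by rw [LinearMap.add_apply, ht, hs, add_smul]⟩
    | mul x y _ _ hx hy =>
      obtain ⟨t, ht⟩ := hx
      obtain ⟨s, hs⟩ := hy
      exact ⟨s * t, by rw [Module.End.mul_apply, hs, map_smul, ht, smul_smul]⟩
  have h2 := p.irr (∑ j, c j • p.u j) (p.mem_W_iff.2 ⟨c, rfl⟩) fun X hX =>
    h1 _ (h.cx_adjoin _ (bc_mem hX))
  have h3 := p.co_comb c
  rw [h2, map_zero] at h3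
  exact hc0 h3.symm

/-- Two planes are isomorphic for the derived algebra. -/
def Iso (p q : Pl A) : Prop := ∃ h : M2, h.det ≠ 0 ∧
  ∀ X ∈ der A.NA, h * q.R (X.baseChange ℂ) = p.R (X.baseChange ℂ) * h

theorem inter_cx {p q : Pl A} {S : Submodule ℚ (Module.End ℚ A.H1)} {h : M2}
    (hh : ∀ X ∈ S, h * q.R (X.baseChange ℂ) = p.R (X.baseChange ℂ) * h) :
    ∀ x ∈ cx S, h * q.R x = p.R x * h := by
  intro x hx
  induction hx using Submodule.span_induction with
  | mem x hx =>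
    obtain ⟨X, hX, rfl⟩ := hx
    exact hh X hX
  | zero => rw [map_zero, map_zero, mul_zero, zero_mul]
  | add a b _ _ ha hb => rw [map_add, map_add, mul_add, add_mul, ha, hb]
  | smul c a _ ha => rw [map_smul, map_smul, mul_smul_comm, smul_mul_assoc, ha]

theorem Iso.refl (p : Pl A) : Iso p p := ⟨1, by simp, fun X _ => by rw [one_mul, mul_one]⟩

theorem Iso.symm {p q : Pl A} (h : Iso p q) : Iso q p := by
  obtain ⟨k, hk, h⟩ := h
  have hu : IsUnit k.det := isUnit_iff_ne_zero.2 hk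
  refine ⟨k⁻¹, ?_, fun X hX => ?_⟩
  · exact (Matrix.isUnit_nonsing_inv_det k hu).ne_zero
  · have h1 : k⁻¹ * (k * q.R (X.baseChange ℂ)) * k⁻¹ = k⁻¹ * (p.R (X.baseChange ℂ) * k) * k⁻¹ := by
      rw [h X hX]
    rw [← mul_assoc, Matrix.nonsing_inv_mul _ hu, one_mul, mul_assoc, mul_assoc,
      Matrix.mul_nonsing_inv _ hu, mul_one] at h1
    exact h1.symm

theorem Iso.trans {p q r : Pl A} (h : Iso p q) (h' : Iso q r) : Iso p r := by
  obtain ⟨k, hk, h⟩ := h
  obtain ⟨k', hk', h'⟩ := h'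
  refine ⟨k * k', by rw [det_mul]; exact mul_ne_zero hk hk', fun X hX => ?_⟩
  rw [mul_assoc, h' X hX, ← mul_assoc, h X hX, mul_assoc]

/-- No graph: the planes are not isomorphic for the derived algebra of a full subalgebra. -/
def Apart (p q : Pl A) : Prop := ∀ 𝔮 : Submodule ℚ (Module.End ℚ A.H1), A.Full 𝔮 →
  ¬ ∃ h : M2, h.det ≠ 0 ∧ ∀ x ∈ cx (der 𝔮), h * q.R x = p.R x * h

theorem Apart.symm {p q : Pl A} (h : Apart p q) : Apart q p := by
  rintro 𝔮 h𝔮 ⟨k, hk, h1⟩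
  have hu : IsUnit k.det := isUnit_iff_ne_zero.2 hk
  refine h 𝔮 h𝔮 ⟨k⁻¹, ?_, fun x hx => ?_⟩
  · exact (Matrix.isUnit_nonsing_inv_det k hu).ne_zero
  · have h2 : k⁻¹ * (k * p.R x) * k⁻¹ = k⁻¹ * (q.R x * k) * k⁻¹ := by rw [h1 x hx]
    rw [← mul_assoc, Matrix.nonsing_inv_mul _ hu, one_mul, mul_assoc, mul_assoc,
      Matrix.mul_nonsing_inv _ hu, mul_one] at h2
    exact h2.symm

theorem Apart.of_iso {p q p' q' : Pl A} (hp : Iso p' p) (hq : Iso q' q) (h : Apart p' q') :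
    Apart p q := by
  rintro 𝔮 h𝔮 ⟨k, hk, h1⟩
  obtain ⟨a, ha, h2⟩ := hp
  obtain ⟨b, hb, h3⟩ := hq.symm
  have hle : cx (der 𝔮) ≤ cx (der A.NA) := by
    refine cx_mono ?_
    unfold der
    exact Submodule.span_mono fun _ ⟨X, hX, Y, hY, e⟩ => ⟨X, h𝔮.le hX, Y, h𝔮.le hY, e⟩
  refine h 𝔮 h𝔮 ⟨a * k * b, by rw [det_mul, det_mul]; exact mul_ne_zero (mul_ne_zero ha hk) hb,
    fun x hx => ?_⟩
  rw [mul_assoc, inter_cx h3 x (hle hx), ← mul_assoc, mul_assoc a k, h1 x hx, ← mul_assoc,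
    inter_cx h2 x (hle hx), mul_assoc, mul_assoc, mul_assoc]

/-- A matrix which commutes with all matrices with trace zero is a scalar. -/
theorem scalar_of_comm {m : M2} (h : ∀ k : M2, k.trace = 0 → m * k = k * m) :
    m = (m.trace / 2) • (1 : M2) := by
  have h1 := h mE tr_mE
  have h2 := h mF tr_mF
  have e1 := congrFun (congrFun h1 0) 1
  have e2 := congrFun (congrFun h1 0) 0
  have e3 := congrFun (congrFun h2 0) 0
  have e4 := congrFun (congrFun h2 1) 1
  simp [mE, mF, Matrix.mul_apply, Fin.sum_univ_two] at e1 e2 e3 e4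
  replace e2 := e2.symm
  ext i j
  rw [Matrix.trace_fin_two]
  fin_cases i <;> fin_cases j <;> simp [e1, e2, e3]

/-- **The same trace on the whole Lie algebra**: planes which are isomorphic for the derived algebra of a
full subalgebra are isomorphic. -/
theorem apart_of_trace {p q : Pl A} (hpq : ¬ Iso p q)
    (ht : ∀ X ∈ A.NA, (p.R (X.baseChange ℂ)).trace = (q.R (X.baseChange ℂ)).trace) :
    Apart p q := by
  rintro 𝔮 h𝔮 ⟨k, hk, h1⟩
  apply hpq
  have ht' : ∀ x ∈ cx A.NA, (p.R x).trace = (q.R x).trace := by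
    intro x hx
    induction hx using Submodule.span_induction with
    | mem x hx =>
      obtain ⟨X, hX, rfl⟩ := hx
      exact ht X hX
    | zero => rw [map_zero, map_zero]
    | add a b _ _ ha hb => rw [map_add, map_add, trace_add, trace_add, ha, hb]
    | smul c a _ ha => rw [map_smul, map_smul, trace_smul, trace_smul, ha]
  have h2 : ∀ x ∈ cx 𝔮, k * q.R x = p.R x * k := by
    intro x hx
    obtain ⟨Z, hZ, d, hd, rfl, hc⟩ := h𝔮.cx_dec x hx
    have hs : ∀ r : Pl A, r.R Z = ((r.R Z).trace / 2) • (1 : M2) := by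
      intro r
      refine scalar_of_comm fun m hm => ?_
      obtain ⟨y, hy, rfl⟩ := r.onto h𝔮 m hm
      have hy' : y ∈ cx 𝔮 := cx_mono h𝔮.der_le hy
      rw [← r.R_mul (r.cx_le_St _ (cx_mono h𝔮.le hZ)) (r.cx_le_St _ (cx_mono h𝔮.le hy')),
        ← r.R_mul (r.cx_le_St _ (cx_mono h𝔮.le hy')) (r.cx_le_St _ (cx_mono h𝔮.le hZ)), hc y hy']
    rw [map_add, map_add, mul_add, add_mul, h1 d hd, hs p, hs q, ht' Z (cx_mono h𝔮.le hZ),
      mul_smul_comm, smul_mul_assoc, mul_one, one_mul]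
  have h3 : ∀ x ∈ Algebra.adjoin ℂ (cx 𝔮 : Set (Module.End ℂ (ℂ ⊗[ℚ] A.H1))),
      (x ∈ p.St ∧ x ∈ q.St) ∧ k * q.R x = p.R x * k := by
    intro x hx
    induction hx using Algebra.adjoin_induction with
    | mem x hx =>
      exact ⟨⟨p.cx_le_St _ (cx_mono h𝔮.le hx), q.cx_le_St _ (cx_mono h𝔮.le hx)⟩, h2 x hx⟩
    | algebraMap t =>
      exact ⟨⟨Subalgebra.algebraMap_mem _ t, Subalgebra.algebraMap_mem _ t⟩, by
        rw [R_algebraMap, R_algebraMap, mul_smul_comm, smul_mul_assoc, mul_one, one_mul]⟩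
    | add x y _ _ hx hy =>
      exact ⟨⟨Subalgebra.add_mem _ hx.1.1 hy.1.1, Subalgebra.add_mem _ hx.1.2 hy.1.2⟩, by
        rw [map_add, map_add, mul_add, add_mul, hx.2, hy.2]⟩
    | mul x y _ _ hx hy =>
      exact ⟨⟨Subalgebra.mul_mem _ hx.1.1 hy.1.1, Subalgebra.mul_mem _ hx.1.2 hy.1.2⟩, by
        rw [p.R_mul hx.1.1 hy.1.1, q.R_mul hx.1.2 hy.1.2, ← mul_assoc, hx.2, mul_assoc, hy.2,
          mul_assoc]⟩
  exact ⟨k, hk, fun X hX => (h3 _ (h𝔮.cx_adjoin _ (bc_mem (full_der_le hX)))).2⟩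
where
  full_der_le {X : Module.End ℚ A.H1} (hX : X ∈ der A.NA) : X ∈ A.NA := by
    have h : der A.NA ≤ A.NA := by
      unfold der
      rw [Submodule.span_le]
      rintro _ ⟨X, hX, Y, hY, rfl⟩
      exact A.NA_bracket hX hY
    exact h hX

/-- **Families of planes.** -/
theorem joint (h : A.Full 𝔮) {ι : Type} [Finite ι] (P : ι → Pl A)
    (hP : ∀ a b, Iso (P a) (P b) ∨ Apart (P a) (P b)) {X : Module.End ℚ A.H1} (hX : X ∈ der A.NA) :
    ∃ y ∈ cx (der 𝔮), ∀ a j, X.baseChange ℂ ((P a).u j) = y ((P a).u j) := by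
  classical
  let s : Setoid ι :=
    { r := fun a b => Iso (P a) (P b)
      iseqv := ⟨fun a => Iso.refl _, fun h => h.symm, fun h h' => h.trans h'⟩ }
  have : Fintype (Quotient s) := Fintype.ofFinite _
  have hNA : A.Full A.NA ∨ True := Or.inr trivial
  have hdd : der A.NA ≤ A.NA := by
    unfold der
    rw [Submodule.span_le]
    rintro _ ⟨X, hX, Y, hY, rfl⟩
    exact A.NA_bracket hX hY
  have htr : ∀ a, ((P a).R (X.baseChange ℂ)).trace = 0 := by
    intro a
    induction hX using Submodule.span_induction with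
    | mem X hX =>
      obtain ⟨X, hX, Y, hY, rfl⟩ := hX
      rw [bc_br, (P a).R_br ((P a).cx_le_St _ (bc_mem hX)) ((P a).cx_le_St _ (bc_mem hY)),
        trace_sub, trace_mul_comm, sub_self]
    | zero => rw [LinearMap.baseChange_zero, map_zero, Matrix.trace_zero]
    | add a b _ _ ha hb => rw [LinearMap.baseChange_add, map_add, trace_add, ha, hb, add_zero]
    | smul c b _ ha =>
      have h2 : (c • b).baseChange ℂ = (c : ℂ) • (b.baseChange ℂ : Module.End ℂ (ℂ ⊗[ℚ] A.H1)) := by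
        rw [LinearMap.baseChange_smul]
        exact (Rat.cast_smul_eq_qsmul ℂ c _).symm
      rw [h2, map_smul, trace_smul, ha, smul_zero]
  obtain ⟨y, hy, hy1⟩ := goursat_ribet (D := cx (der 𝔮)) (R := fun c : Quotient s => (P c.out).R)
    (cx_br fun Z hZ Y hY => by
      rw [← bc_br]
      exact bc_mem (Submodule.subset_span ⟨Z, h.der_le hZ, Y, h.der_le hY, rfl⟩))
    (fun c => (P c.out).isRep (cx_der_le h)) (fun c => (P c.out).onto h)
    (fun c c' hcc => by
      refine ((goursat ?_ h.cx_perfect ((P c.out).isRep (cx_der_le h))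
        ((P c'.out).isRep (cx_der_le h)) ((P c.out).onto h) ((P c'.out).onto h))).resolve_right ?_
      · exact cx_br fun Z hZ Y hY => by
          rw [← bc_br]
          exact bc_mem (Submodule.subset_span ⟨Z, h.der_le hZ, Y, h.der_le hY, rfl⟩)
      · rcases hP c.out c'.out with h1 | h1
        · exact absurd (by rw [← c.out_eq, ← c'.out_eq]; exact Quotient.sound h1) hcc
        · exact h1 𝔮 h)
    (fun c => (P c.out).R (X.baseChange ℂ)) (fun c => htr c.out)
  refine ⟨y, hy, fun a j => ?_⟩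
  refine (P a).eq_on ((P a).cx_le_St _ (bc_mem (hdd hX)))
    ((P a).cx_le_St _ (cx_der_le h hy)) ?_ j
  have h1 := hy1 ⟦a⟧
  have h0 : Iso (P (Quotient.out (⟦a⟧ : Quotient s))) (P a) := Quotient.mk_out (s := s) a
  obtain ⟨k, hk, h2⟩ := h0.symm
  have hle : cx (der 𝔮) ≤ cx (der A.NA) := by
    refine cx_mono ?_
    unfold der
    exact Submodule.span_mono fun _ ⟨X, hX, Y, hY, e⟩ => ⟨X, h.le hX, Y, h.le hY, e⟩
  have h3 := inter_cx h2 _ (hle hy)
  have h4 := h2 X hX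
  rw [h1, h4] at h3
  have hu : IsUnit k.det := isUnit_iff_ne_zero.2 hk
  have h5 := congrArg (fun m => m * k⁻¹) h3
  simp only [mul_assoc, Matrix.mul_nonsing_inv _ hu, mul_one] at h5
  exact h5

end Pl

end Pool.Agent.V8H77.DP
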