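import Mathlib

set_option autoImplicit false
set_option linter.unusedSimpArgs false
set_option linter.unnecessarySeqFocus false

/-!
# Representations on planes: the lemmas of Goursat and Ribet
-/

open Matrix Module

noncomputable section

namespace Pool.Agent.V8H77.DP

/-- two by two matrices -/
abbrev M2 : Type := Matrix (Fin 2) (Fin 2) ℂ

variable {𝓐 : Type} [Ring 𝓐] [Algebra ℂ 𝓐]

/-- A representation on a plane, of a space of elements closed under brackets. -/
def IsRep (D : Submodule ℂ 𝓐) (R : 𝓐 →ₗ[ℂ] M2) : Prop :=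
  ∀ x ∈ D, ∀ y ∈ D, R (x * y - y * x) = R x * R y - R y * R x

/-- All matrices with trace zero are in the image. -/
def Onto (D : Submodule ℂ 𝓐) (R : 𝓐 →ₗ[ℂ] M2) : Prop :=
  ∀ m : M2, m.trace = 0 → ∃ x ∈ D, R x = m

/-- The space is closed under brackets. -/
def IsLie (D : Submodule ℂ 𝓐) : Prop := ∀ x ∈ D, ∀ y ∈ D, x * y - y * x ∈ D

/-- The space is perfect. -/
def IsPerf (D : Submodule ℂ 𝓐) : Prop :=
  D ≤ Submodule.span ℂ {Z | ∃ X ∈ D, ∃ Y ∈ D, Z = X * Y - Y * X}

variable {D : Submodule ℂ 𝓐} {R S : 𝓐 →ₗ[ℂ] M2}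

theorem tr_zero (hp : IsPerf D) (hR : IsRep D R) {x : 𝓐} (hx : x ∈ D) : (R x).trace = 0 := by
  have h1 := hp hx
  clear hx
  induction h1 using Submodule.span_induction with
  | mem x h =>
    obtain ⟨X, hX, Y, hY, rfl⟩ := h
    rw [hR X hX Y hY, trace_sub, trace_mul_comm, sub_self]
  | zero => rw [map_zero, Matrix.trace_zero]
  | add a b _ _ ha hb => rw [map_add, trace_add, ha, hb, add_zero]
  | smul c a _ ha => rw [map_smul, trace_smul, ha, smul_zero]

/-- The matrices with trace zero. -/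
def sl : Submodule ℂ M2 := LinearMap.ker (Matrix.traceLinearMap (Fin 2) ℂ ℂ)

theorem mem_sl {m : M2} : m ∈ sl ↔ m.trace = 0 := by
  unfold sl
  rw [LinearMap.mem_ker, Matrix.traceLinearMap_apply]

theorem finrank_sl : finrank ℂ sl = 3 := by
  have h1 := LinearMap.finrank_range_add_finrank_ker (Matrix.traceLinearMap (Fin 2) ℂ ℂ)
  have h2 : finrank ℂ (LinearMap.range (Matrix.traceLinearMap (Fin 2) ℂ ℂ)) = 1 := by
    have h3 : LinearMap.range (Matrix.traceLinearMap (Fin 2) ℂ ℂ) = ⊤ := by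
      rw [LinearMap.range_eq_top]
      intro c
      refine ⟨!![c, 0; 0, 0], ?_⟩
      rw [Matrix.traceLinearMap_apply, Matrix.trace_fin_two]
      simp
    rw [h3, finrank_top, finrank_self]
  have h4 : finrank ℂ M2 = 4 := by
    rw [Module.finrank_matrix]
    simp
  rw [h2, h4] at h1
  change 1 + finrank ℂ sl = 4 at h1
  omega

/-- **A perfect Lie algebra of two by two matrices** is zero or contains all matrices with trace
zero. -/
theorem onto_of_perf (hp : IsPerf D) (hR : IsRep D R) (h0 : ∃ x ∈ D, R x ≠ 0) : Onto D R := by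
  set L : Submodule ℂ M2 := D.map R with hL
  have hLs : L ≤ sl := by
    rintro _ ⟨x, hx, rfl⟩
    exact mem_sl.2 (tr_zero hp hR hx)
  have hLp : ∀ T : Submodule ℂ M2, (∀ x ∈ L, ∀ y ∈ L, x * y - y * x ∈ T) → L ≤ T := by
    rintro T hT _ ⟨x, hx, rfl⟩
    have h1 := hp hx
    clear hx
    induction h1 using Submodule.span_induction with
    | mem x h =>
      obtain ⟨X, hX, Y, hY, rfl⟩ := h
      rw [hR X hX Y hY]
      exact hT _ ⟨X, hX, rfl⟩ _ ⟨Y, hY, rfl⟩
    | zero => rw [map_zero]; exact T.zero_mem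
    | add a b _ _ ha hb => rw [map_add]; exact T.add_mem ha hb
    | smul c a _ ha => rw [map_smul]; exact T.smul_mem _ ha
  have hL0 : L ≠ ⊥ := by
    obtain ⟨x, hx, hx0⟩ := h0
    intro h
    apply hx0
    have h1 : R x ∈ L := ⟨x, hx, rfl⟩
    rw [h] at h1
    exact (Submodule.mem_bot ℂ).1 h1
  have hle : finrank ℂ L ≤ 3 := by
    rw [← finrank_sl]
    exact Submodule.finrank_mono hLs
  have key : finrank ℂ L = 3 := by
    by_contra hne
    have h2 : finrank ℂ L = 0 ∨ finrank ℂ L = 1 ∨ finrank ℂ L = 2 := by omega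
    rcases h2 with h2 | h2 | h2
    · exact hL0 (Submodule.finrank_eq_zero.1 h2)
    · let b := Module.finBasisOfFinrankEq ℂ L h2
      apply hL0
      rw [eq_bot_iff]
      refine hLp _ fun x hx y hy => ?_
      have hx' := congrArg Subtype.val (b.sum_repr ⟨x, hx⟩)
      have hy' := congrArg Subtype.val (b.sum_repr ⟨y, hy⟩)
      simp only [Fin.sum_univ_one, Submodule.coe_smul] at hx' hy'
      rw [Submodule.mem_bot, ← hx', ← hy']
      simp only [smul_mul_assoc, mul_smul_comm]
      module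
    · let b := Module.finBasisOfFinrankEq ℂ L h2
      have h3 : L ≤ Submodule.span ℂ {(b 0 : M2) * b 1 - b 1 * b 0} := by
        refine hLp _ fun x hx y hy => ?_
        have hx' := congrArg Subtype.val (b.sum_repr ⟨x, hx⟩)
        have hy' := congrArg Subtype.val (b.sum_repr ⟨y, hy⟩)
        simp only [Fin.sum_univ_two, Submodule.coe_add, Submodule.coe_smul] at hx' hy'
        rw [Submodule.mem_span_singleton]
        refine ⟨b.repr ⟨x, hx⟩ 0 * b.repr ⟨y, hy⟩ 1 - b.repr ⟨x, hx⟩ 1 * b.repr ⟨y, hy⟩ 0, ?_⟩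
        conv_rhs => rw [← hx', ← hy']
        simp only [add_mul, mul_add, smul_mul_assoc, mul_smul_comm]
        module
      have h4 := Submodule.finrank_mono h3
      have h5 := finrank_span_le_card (R := ℂ) ({(b 0 : M2) * b 1 - b 1 * b 0} : Set M2)
      rw [Set.toFinset_singleton, Finset.card_singleton] at h5
      omega
  have h6 : L = sl := Submodule.eq_of_le_of_finrank_eq hLs (by rw [key, finrank_sl])
  intro m hm
  have h7 : m ∈ L := by rw [h6]; exact mem_sl.2 hm
  obtain ⟨x, hx, h⟩ := h7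
  exact ⟨x, hx, h⟩

/-! ### The standard basis -/

/-- the matrix `e` -/
def mE : M2 := !![0, 1; 0, 0]
/-- the matrix `f` -/
def mF : M2 := !![0, 0; 1, 0]
/-- the matrix `h` -/
def mH : M2 := !![1, 0; 0, -1]

theorem tr_mE : mE.trace = 0 := by simp [mE, Matrix.trace_fin_two]
theorem tr_mF : mF.trace = 0 := by simp [mF, Matrix.trace_fin_two]
theorem tr_mH : mH.trace = 0 := by simp [mH, Matrix.trace_fin_two]

theorem ef : mE * mF - mF * mE = mH := by
  ext i j
  fin_cases i <;> fin_cases j <;> simp [mE, mF, mH, Matrix.mul_apply, Fin.sum_univ_two]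

theorem he : mH * mE - mE * mH = (2 : ℂ) • mE := by
  ext i j
  fin_cases i <;> fin_cases j <;> simp [mE, mH, Matrix.mul_apply, Fin.sum_univ_two] <;> norm_num

theorem hf : mH * mF - mF * mH = (-2 : ℂ) • mF := by
  ext i j
  fin_cases i <;> fin_cases j <;> simp [mF, mH, Matrix.mul_apply, Fin.sum_univ_two] <;> norm_num

theorem dec_sl {m : M2} (h : m.trace = 0) : m = m 0 1 • mE + m 1 0 • mF + m 0 0 • mH := by
  rw [Matrix.trace_fin_two] at h
  have h1 : m 1 1 = - m 0 0 := by linear_combination h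
  ext i j
  fin_cases i <;> fin_cases j <;> simp [mE, mF, mH, h1]

/-- A traceless matrix is a sum of three commutators. -/
theorem com_sl {m : M2} (h : m.trace = 0) :
    m = (mH * ((m 0 1 / 2) • mE) - ((m 0 1 / 2) • mE) * mH) +
      (mH * ((- m 1 0 / 2) • mF) - ((- m 1 0 / 2) • mF) * mH) +
      (mE * (m 0 0 • mF) - (m 0 0 • mF) * mE) := by
  conv_lhs => rw [dec_sl h]
  simp only [mul_smul_comm, smul_mul_assoc, ← smul_sub, he, hf, ef, smul_smul]
  congr 1
  congr 1
  · congr 1; ring
  · congr 1; ring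

theorem ad2F (k : M2) : mF * (mF * k - k * mF) - (mF * k - k * mF) * mF = (-2 * k 0 1) • mF := by
  rw [Matrix.eta_fin_two k]
  ext i j
  fin_cases i <;> fin_cases j <;> simp [mF, Matrix.mul_fin_two] <;> ring

theorem ad2E (k : M2) : mE * (mE * k - k * mE) - (mE * k - k * mE) * mE = (-2 * k 1 0) • mE := by
  rw [Matrix.eta_fin_two k]
  ext i j
  fin_cases i <;> fin_cases j <;> simp [mE, Matrix.mul_fin_two] <;> ring

/-- **Ideals of `sl 2`.** -/
theorem ideal_sl (K : Submodule ℂ M2) (hK : ∀ k ∈ K, k.trace = 0)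
    (hi : ∀ m : M2, m.trace = 0 → ∀ k ∈ K, m * k - k * m ∈ K) :
    K = ⊥ ∨ ∀ m : M2, m.trace = 0 → m ∈ K := by
  by_cases h0 : K = ⊥
  · exact Or.inl h0
  right
  obtain ⟨k, hk, hk0⟩ := (Submodule.ne_bot_iff K).1 h0
  have hkd := dec_sl (hK k hk)
  -- from `e` everything
  have fromE : mE ∈ K → ∀ m : M2, m.trace = 0 → m ∈ K := by
    intro hE m hm
    have hH : mH ∈ K := by
      have h1 := hi mF tr_mF mE hE
      have h2 : mF * mE - mE * mF = - mH := by rw [← ef]; abel
      rw [h2] at h1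
      simpa using K.neg_mem h1
    have hF : mF ∈ K := by
      have h1 := hi mF tr_mF mH hH
      have h2 : mF * mH - mH * mF = (2 : ℂ) • mF := by
        have := hf
        rw [← neg_sub, this]
        module
      rw [h2] at h1
      have h3 := K.smul_mem (1 / 2 : ℂ) h1
      rw [smul_smul] at h3
      norm_num at h3
      exact h3
    rw [dec_sl hm]
    exact K.add_mem (K.add_mem (K.smul_mem _ hE) (K.smul_mem _ hF)) (K.smul_mem _ hH)
  have fromF : mF ∈ K → ∀ m : M2, m.trace = 0 → m ∈ K := by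
    intro hF
    apply fromE
    have hH : mH ∈ K := by
      have h1 := hi mE tr_mE mF hF
      rwa [ef] at h1
    have h1 := hi mE tr_mE mH hH
    have h2 : mE * mH - mH * mE = (-2 : ℂ) • mE := by
      have := he
      rw [← neg_sub, this]
      module
    rw [h2] at h1
    have h3 := K.smul_mem (-1 / 2 : ℂ) h1
    rw [smul_smul] at h3
    norm_num at h3
    exact h3
  by_cases hc : k 1 0 = 0
  · by_cases hb : k 0 1 = 0
    · have ha : k 0 0 ≠ 0 := by
        intro ha
        apply hk0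
        rw [hkd, hc, hb, ha]
        simp
      rw [hc, hb, zero_smul, zero_smul, zero_add, zero_add] at hkd
      rw [hkd] at hk
      have hH : mH ∈ K := by
        have h3 := K.smul_mem (k 0 0)⁻¹ hk
        rwa [smul_smul, inv_mul_cancel₀ ha, one_smul] at h3
      apply fromE
      have h1 := hi mE tr_mE mH hH
      have h2 : mE * mH - mH * mE = (-2 : ℂ) • mE := by
        have := he
        rw [← neg_sub, this]
        module
      rw [h2] at h1
      have h3 := K.smul_mem (-1 / 2 : ℂ) h1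
      rw [smul_smul] at h3
      norm_num at h3
      exact h3
    · -- `[f, [f, k]] = -2 b f`
      apply fromF
      have h1 := hi mF tr_mF _ (hi mF tr_mF k hk)
      rw [ad2F] at h1
      have h3 := K.smul_mem (-2 * k 0 1)⁻¹ h1
      rwa [smul_smul, inv_mul_cancel₀ (mul_ne_zero (by norm_num) hb), one_smul] at h3
  · apply fromE
    have h1 := hi mE tr_mE _ (hi mE tr_mE k hk)
    rw [ad2E] at h1
    have h3 := K.smul_mem (-2 * k 1 0)⁻¹ h1
    rwa [smul_smul, inv_mul_cancel₀ (mul_ne_zero (by norm_num) hc), one_smul] at h3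

/-! ### The lemma of Goursat -/

theorem cay (m : M2) (h : m.trace = 0) : m * m = (- m.det) • (1 : M2) := by
  rw [Matrix.trace_fin_two] at h
  rw [Matrix.det_fin_two]
  have h1 : m 1 1 = - m 0 0 := by linear_combination h
  ext i j
  fin_cases i <;> fin_cases j <;> simp [Matrix.mul_apply, Fin.sum_univ_two, h1] <;> ring

theorem sq_zero {E H : M2} (hE : E.trace = 0) (h : H * E - E * H = (2 : ℂ) • E ∨
    H * E - E * H = (-2 : ℂ) • E) : E * E = 0 := by
  have h1 : (E * E).trace = 0 := by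
    rcases h with h | h
    · have h2 : (2 : ℂ) • (E * E) = H * E * E - E * H * E := by
        rw [← smul_mul_assoc, ← h, sub_mul]
      have h3 : (2 : ℂ) * (E * E).trace = 0 := by
        rw [← smul_eq_mul, ← trace_smul, h2, trace_sub, mul_assoc E H E, trace_mul_comm E (H * E),
          sub_self]
      simpa using h3
    · have h2 : (-2 : ℂ) • (E * E) = H * E * E - E * H * E := by
        rw [← smul_mul_assoc, ← h, sub_mul]
      have h3 : (-2 : ℂ) * (E * E).trace = 0 := by
        rw [← smul_eq_mul, ← trace_smul, h2, trace_sub, mul_assoc E H E, trace_mul_comm E (H * E),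
          sub_self]
      simpa using h3
  rw [cay E hE, trace_smul] at h1
  have h4 : E.det = 0 := by
    simpa [Matrix.trace_one] using h1
  rw [cay E hE, h4, neg_zero, zero_smul]

/-- **Automorphisms of `sl 2` are inner.** -/
theorem exists_conj {E F : M2} (hE : E.trace = 0) (hF : F.trace = 0) (h0 : E ≠ 0)
    (h1 : (E * F - F * E) * E - E * (E * F - F * E) = (2 : ℂ) • E)
    (h2 : (E * F - F * E) * F - F * (E * F - F * E) = (-2 : ℂ) • F) :
    ∃ h : M2, h.det ≠ 0 ∧ h * mE = E * h ∧ h * mF = F * h := by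
  have hEE : E * E = 0 := sq_zero hE (Or.inl h1)
  have hFF : F * F = 0 := sq_zero hF (Or.inr h2)
  -- `E F E = E`
  have h3 : E * F * E = E := by
    have h4 : (E * F - F * E) * E - E * (E * F - F * E) = (2 : ℂ) • (E * F * E) := by
      have h5 : (E * F - F * E) * E - E * (E * F - F * E) =
          E * F * E - F * (E * E) - (E * E) * F + E * F * E := by noncomm_ring
      rw [h5, hEE, mul_zero, zero_mul, two_smul]
      abel
    rw [h4] at h1
    have h6 := congrArg (fun m => (2 : ℂ)⁻¹ • m) h1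
    simpa [smul_smul] using h6
  obtain ⟨w, hw⟩ : ∃ w, E *ᵥ w ≠ 0 := by
    by_contra hcon
    push Not at hcon
    apply h0
    refine Matrix.ext_of_mulVec_single fun i => ?_
    rw [hcon, zero_mulVec]
  set v := E *ᵥ w with hv
  have hEv : E *ᵥ v = 0 := by rw [hv, mulVec_mulVec, hEE, zero_mulVec]
  have hEFv : E *ᵥ (F *ᵥ v) = v := by
    rw [hv, mulVec_mulVec, mulVec_mulVec, h3]
  have hFFv : F *ᵥ (F *ᵥ v) = 0 := by rw [mulVec_mulVec, hFF, zero_mulVec]
  refine ⟨Matrix.of fun i j => ![v, F *ᵥ v] j i, ?_, ?_, ?_⟩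
  · intro hdet
    obtain ⟨c, hc, hc'⟩ := (Matrix.exists_mulVec_eq_zero_iff).2 hdet
    have h4 : c 0 • v + c 1 • (F *ᵥ v) = 0 := by
      rw [← hc']
      generalize F *ᵥ v = u
      ext i
      simp [Matrix.mulVec, dotProduct, Fin.sum_univ_two, mul_comm]
    have h5 := congrArg (fun u => E *ᵥ u) h4
    simp only [mulVec_add, mulVec_smul, hEv, hEFv, smul_zero, zero_add, mulVec_zero] at h5
    have hc1 : c 1 = 0 := (smul_eq_zero.1 h5).resolve_right hw
    rw [hc1, zero_smul, add_zero] at h4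
    have hc0 : c 0 = 0 := (smul_eq_zero.1 h4).resolve_right hw
    apply hc
    ext i
    fin_cases i
    · exact hc0
    · exact hc1
  · ext i j
    have h4 := congrFun hEv i
    have h5 := congrFun hEFv i
    fin_cases j
    · simp [mE, Matrix.mul_apply, Fin.sum_univ_two, Matrix.mulVec, dotProduct] at h4 ⊢
      exact h4.symm
    · simp [mE, Matrix.mul_apply, Fin.sum_univ_two, Matrix.mulVec, dotProduct] at h5 ⊢
      exact h5.symm
  · ext i j
    have h5 := congrFun hFFv i
    fin_cases j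
    · fin_cases i <;> simp [mF, Matrix.mul_apply, Fin.sum_univ_two, Matrix.mulVec, dotProduct]
    · simp [mF, Matrix.mul_apply, Fin.sum_univ_two, Matrix.mulVec, dotProduct] at h5 ⊢
      exact h5.symm

/-- **The lemma of Goursat** for two representations on planes. -/
theorem goursat (hD : IsLie D) (hp : IsPerf D) (hR : IsRep D R) (hS : IsRep D S) (oR : Onto D R)
    (oS : Onto D S) : (∀ m m' : M2, m.trace = 0 → m'.trace = 0 → ∃ x ∈ D, R x = m ∧ S x = m') ∨
      ∃ h : M2, h.det ≠ 0 ∧ ∀ x ∈ D, h * S x = R x * h := by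
  let K : Submodule ℂ M2 :=
    { carrier := {k | ∃ x ∈ D, S x = 0 ∧ R x = k}
      zero_mem' := ⟨0, D.zero_mem, map_zero _, map_zero _⟩
      add_mem' := by
        rintro _ _ ⟨x, hx, h1, rfl⟩ ⟨y, hy, h2, rfl⟩
        exact ⟨x + y, D.add_mem hx hy, by rw [map_add, h1, h2, add_zero], map_add _ _ _⟩
      smul_mem' := by
        rintro c _ ⟨x, hx, h1, rfl⟩
        exact ⟨c • x, D.smul_mem c hx, by rw [map_smul, h1, smul_zero], map_smul _ _ _⟩ }
  have hK : ∀ k ∈ K, k.trace = 0 := by
    rintro _ ⟨x, hx, -, rfl⟩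
    exact tr_zero hp hR hx
  have hi : ∀ m : M2, m.trace = 0 → ∀ k ∈ K, m * k - k * m ∈ K := by
    rintro m hm _ ⟨x, hx, h1, rfl⟩
    obtain ⟨y, hy, rfl⟩ := oR m hm
    exact ⟨y * x - x * y, hD y hy x hx, by rw [hS y hy x hx, h1, mul_zero, zero_mul, sub_zero],
      hR y hy x hx⟩
  rcases ideal_sl K hK hi with h | h
  · right
    have h0 : ∀ x ∈ D, S x = 0 → R x = 0 := by
      intro x hx h1
      have h2 : R x ∈ K := ⟨x, hx, h1, rfl⟩
      rw [h] at h2
      exact (Submodule.mem_bot ℂ).1 h2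
    obtain ⟨e, he', hes⟩ := oS mE tr_mE
    obtain ⟨f, hf', hfs⟩ := oS mF tr_mF
    have heh : R (e * f - f * e) = R e * R f - R f * R e := hR e he' f hf'
    have hsh : S (e * f - f * e) = mH := by rw [hS e he' f hf', hes, hfs, ef]
    have hhD := hD e he' f hf'
    have hR1 : (R e * R f - R f * R e) * R e - R e * (R e * R f - R f * R e) = (2 : ℂ) • R e := by
      have h1 := h0 ((e * f - f * e) * e - e * (e * f - f * e) - (2 : ℂ) • e)
        (D.sub_mem (hD _ hhD _ he') (D.smul_mem _ he'))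
        (by rw [map_sub, hS _ hhD _ he', map_smul, hsh, hes, he, sub_self])
      rw [map_sub, hR _ hhD _ he', map_smul, heh] at h1
      exact sub_eq_zero.1 h1
    have hR2 : (R e * R f - R f * R e) * R f - R f * (R e * R f - R f * R e) = (-2 : ℂ) • R f := by
      have h1 := h0 ((e * f - f * e) * f - f * (e * f - f * e) - (-2 : ℂ) • f)
        (D.sub_mem (hD _ hhD _ hf') (D.smul_mem _ hf'))
        (by rw [map_sub, hS _ hhD _ hf', map_smul, hsh, hfs, hf, sub_self])
      rw [map_sub, hR _ hhD _ hf', map_smul, heh] at h1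
      exact sub_eq_zero.1 h1
    have hdec : ∀ x ∈ D, R x = (S x 0 1) • R e + (S x 1 0) • R f + (S x 0 0) • R (e * f - f * e) := by
      intro x hx
      have h1 := h0 (x - ((S x 0 1) • e + (S x 1 0) • f + (S x 0 0) • (e * f - f * e)))
        (D.sub_mem hx (D.add_mem (D.add_mem (D.smul_mem _ he') (D.smul_mem _ hf'))
          (D.smul_mem _ hhD)))
        (by
          rw [map_sub, map_add, map_add, map_smul, map_smul, map_smul, hsh, hes, hfs,
            ← dec_sl (tr_zero hp hS hx), sub_self])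
      rw [map_sub, sub_eq_zero, map_add, map_add, map_smul, map_smul, map_smul] at h1
      exact h1
    have hE0 : R e ≠ 0 := by
      intro hE0
      have hH0 : R (e * f - f * e) = 0 := by rw [heh, hE0, zero_mul, mul_zero, sub_zero]
      have hF0 : R f = 0 := by
        have h3 := hR2
        rw [← heh, hH0, zero_mul, mul_zero, sub_zero] at h3
        exact (smul_eq_zero.1 h3.symm).resolve_left (by norm_num)
      obtain ⟨x, hx, hx'⟩ := oR mE tr_mE
      have h4 := hdec x hx
      rw [hE0, hF0, hH0, smul_zero, smul_zero, smul_zero, add_zero, add_zero, hx'] at h4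
      have h5 := congrFun (congrFun h4 0) 1
      simp [mE] at h5
    obtain ⟨k, hk, hk1, hk2⟩ := exists_conj (tr_zero hp hR he') (tr_zero hp hR hf') hE0 hR1 hR2
    refine ⟨k, hk, fun x hx => ?_⟩
    have hk3 : k * mH = R (e * f - f * e) * k := by
      rw [← ef, mul_sub, ← mul_assoc, ← mul_assoc, hk1, hk2, mul_assoc, mul_assoc, hk1, hk2, heh,
        sub_mul, mul_assoc, mul_assoc]
    conv_lhs => rw [dec_sl (tr_zero hp hS hx)]
    rw [hdec x hx]
    simp only [mul_add, add_mul, mul_smul_comm, smul_mul_assoc, hk1, hk2, hk3]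
  · left
    intro m m' hm hm'
    obtain ⟨x, hx, hxs⟩ := oS m' hm'
    have h1 : (m - R x).trace = 0 := by rw [trace_sub, hm, tr_zero hp hR hx, sub_zero]
    obtain ⟨y, hy, hy1, hy2⟩ := h _ h1
    exact ⟨x + y, D.add_mem hx hy, by rw [map_add, hy2]; abel, by rw [map_add, hy1, hxs, add_zero]⟩

/-- **The lemma of Goursat and Ribet** for finite families of representations on planes. -/
theorem goursat_ribet {ι : Type} [DecidableEq ι] [Fintype ι] {R : ι → 𝓐 →ₗ[ℂ] M2} (hD : IsLie D)
    (hR : ∀ c, IsRep D (R c)) (oR : ∀ c, Onto D (R c))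
    (h2 : ∀ c c', c ≠ c' → ∀ m m' : M2, m.trace = 0 → m'.trace = 0 →
      ∃ x ∈ D, R c x = m ∧ R c' x = m') (m : ι → M2) (hm : ∀ c, (m c).trace = 0) :
    ∃ x ∈ D, ∀ c, R c x = m c := by
  have key : ∀ c, ∀ T : Finset ι, c ∉ T → ∀ k : M2, k.trace = 0 →
      ∃ x ∈ D, R c x = k ∧ ∀ c' ∈ T, R c' x = 0 := by
    intro c T
    induction T using Finset.induction_on with
    | empty =>
      intro _ k hk
      obtain ⟨x, hx, h⟩ := oR c k hk
      exact ⟨x, hx, h, fun c' h => absurd h (Finset.notMem_empty c')⟩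
    | insert d T hd ih =>
      intro hc k hk
      have hcT : c ∉ T := fun h => hc (Finset.mem_insert_of_mem h)
      have hcd : c ≠ d := fun h => hc (h ▸ Finset.mem_insert_self _ _)
      -- commutators
      have hcom : ∀ k k' : M2, k.trace = 0 → k'.trace = 0 →
          ∃ x ∈ D, R c x = k * k' - k' * k ∧ ∀ c' ∈ insert d T, R c' x = 0 := by
        intro k k' hk hk'
        obtain ⟨x, hx, h3, h4⟩ := ih hcT k hk
        obtain ⟨y, hy, h5, h6⟩ := h2 c d hcd k' 0 hk' (Matrix.trace_zero _ _)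
        refine ⟨x * y - y * x, hD x hx y hy, by rw [hR c x hx y hy, h3, h5], fun c' hc' => ?_⟩
        rw [hR c' x hx y hy]
        rcases Finset.mem_insert.1 hc' with rfl | hc'
        · rw [h6, mul_zero, zero_mul, sub_zero]
        · rw [h4 c' hc', mul_zero, zero_mul, sub_zero]
      have t1 : ∀ (c : ℂ) {k : M2}, k.trace = 0 → (c • k).trace = 0 := fun c k hk => by
        rw [trace_smul, hk, smul_zero]
      obtain ⟨x, hx, hx1, hx2⟩ := hcom mH ((k 0 1 / 2) • mE) tr_mH (t1 _ tr_mE)
      obtain ⟨y, hy, hy1, hy2⟩ := hcom mH ((- k 1 0 / 2) • mF) tr_mH (t1 _ tr_mF)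
      obtain ⟨z, hz, hz1, hz2⟩ := hcom mE (k 0 0 • mF) tr_mE (t1 _ tr_mF)
      refine ⟨x + y + z, D.add_mem (D.add_mem hx hy) hz, ?_, fun c' hc' => ?_⟩
      · rw [map_add, map_add, hx1, hy1, hz1, ← com_sl hk]
      · rw [map_add, map_add, hx2 c' hc', hy2 c' hc', hz2 c' hc', add_zero, add_zero]
  choose x hx h3 h4 using fun c => key c (Finset.univ.erase c) (Finset.notMem_erase c _) (m c) (hm c)
  refine ⟨∑ c, x c, D.sum_mem fun c _ => hx c, fun c => ?_⟩
  rw [map_sum, Finset.sum_eq_single c, h3]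
  · intro d _ hdc
    exact h4 d c (Finset.mem_erase.2 ⟨hdc.symm, Finset.mem_univ _⟩)
  · intro h
    exact absurd (Finset.mem_univ _) h

end Pool.Agent.V8H77.DP
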